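import Pool.Agent.ALB.Cloud
import Pool.Agent.ALB.Lim

/-! # ALD CA: one cloud

PROOF.  `exists_limit`; if the limit is `0` there is nothing to prove.  Otherwise choose `a` large,
apply `mix_ineq` with one cloud; `K ≥ (1 + ε) k` gives more than the error terms. -/

set_option autoImplicit false

namespace Pool.Agent.ALD

open Finset Pool.Agent.ALB

theorem half_nn {V : Type} [Fintype V] {G : SimpleGraph V} {C κ η : ℝ} (c : Cloud G C κ η)
    (u w : V) : 0 ≤ c.half u w := by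
  unfold Cloud.half
  exact sum_nonneg fun v _ => div_nonneg (mul_nonneg (c.x_nonneg _) (c.x_nonneg _))
    (Nat.cast_nonneg _)

theorem load_nn {V : Type} [Fintype V] {G : SimpleGraph V} {C κ η : ℝ} (c : Cloud G C κ η)
    (f : Sym2 V) : 0 ≤ c.load f := by
  induction f using Sym2.ind with
  | _ u w =>
  rw [Cloud.load_mk]
  unfold Cloud.load2
  have h1 := half_nn c u w
  have h2 := half_nn c w u
  have h3 := mul_nonneg (c.x_nonneg u) (c.x_nonneg w)
  linarith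

theorem cloud_asym {κ η ε : ℝ} (hκ : 0 < κ) (hη : 0 < η) (hε : 0 < ε) :
    ∃ k₀ : ℕ, ∀ (V : Type) (_ : Fintype V) (G : SimpleGraph V) (D : Drw G), D.NoAdj →
      ∀ (c : Cloud G 1 κ η) (k : ℕ), k₀ ≤ k → k ≤ Fintype.card V → (1 + ε) * (k : ℝ) ≤ c.K →
      (∀ f ∈ ed G, c.load f ≤ 1) → crK k ≤ D.cr := by
  obtain ⟨c, hc0, hck, hlim⟩ := exists_limit
  rcases hc0.eq_or_lt with hc | hc
  · refine ⟨0, ?_⟩
    intro V _ G D _ _ k _ _ _ _
    have h1 := hck k
    rw [← hc, zero_mul] at h1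
    have h2 : crK k ≤ 0 := by exact_mod_cast h1
    omega
  · set ε' : ℝ := min ε 1 with hε'
    have hε'0 : 0 < ε' := lt_min hε one_pos
    have hε'1 : ε' ≤ 1 := min_le_right _ _
    have hε'2 : ε' ≤ ε := min_le_left _ _
    obtain ⟨a₀, ha₀, ha⟩ := hlim (ε' / 8 * c) (by positivity)
    set B := B0 1 κ η * 1 ^ 4 with hB
    set a := max a₀ (⌈8 / ε' * |B|⌉₊ + 4) with haD
    have ha4 : 4 ≤ a := ha₀.trans (le_max_left _ _)
    have haa : (c - ε' / 8 * c) * (a.choose 4 : ℝ) ≤ (crK a : ℝ) := ha a (le_max_left _ _)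
    have haR : 8 / ε' * |B| + 4 ≤ (a : ℝ) := by
      have h1 : ⌈8 / ε' * |B|⌉₊ + 4 ≤ a := le_max_right _ _
      have h2 : ((⌈8 / ε' * |B|⌉₊ : ℕ) : ℝ) + 4 ≤ a := by exact_mod_cast h1
      have h3 := Nat.le_ceil (8 / ε' * |B|)
      linarith
    have hB0 : 0 ≤ 8 / ε' * |B| := by positivity
    have ha3 : 0 < (a : ℝ) - 3 := by linarith
    have hBa : B / ((a : ℝ) - 3) ≤ ε' / 8 := by
      rw [div_le_iff₀ ha3]
      have h1 := le_abs_self B
      have h2 : ε' / 8 * (8 / ε' * |B|) = |B| := by field_simp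
      have h3 : ε' / 8 * (8 / ε' * |B|) ≤ ε' / 8 * ((a : ℝ) - 3) :=
        mul_le_mul_of_nonneg_left (by linarith) (by positivity)
      linarith
    set M := (a : ℝ) ^ 4 * (2 * 1 / κ + 1 / η) with hM
    have hM0 : 0 ≤ M := by positivity
    refine ⟨max 1 ⌈8 / ε' * M⌉₊, ?_⟩
    intro V _ G D hD cl k hk0 hkV hK hL
    have h8 : 1 ≤ k := (le_max_left _ _).trans hk0
    have hkM : 8 / ε' * M ≤ k := by
      have h1 : ⌈8 / ε' * M⌉₊ ≤ k := (le_max_right _ _).trans hk0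
      have h2 := Nat.le_ceil (8 / ε' * M)
      have h3 : ((⌈8 / ε' * M⌉₊ : ℕ) : ℝ) ≤ k := by exact_mod_cast h1
      linarith
    have hV : 0 < Fintype.card V := by omega
    have hVR : (k : ℝ) ≤ Fintype.card V := by exact_mod_cast hkV
    have hV0 : (0 : ℝ) < Fintype.card V := by exact_mod_cast hV
    have hmix := mix_ineq D hD (C := 1) (κ := κ) (η := η) one_pos hκ hη hV ha4 (S := Unit)
      (fun _ => 1) (fun _ => zero_le_one) (by simp) (fun _ => cl) cl.K (fun _ => rfl)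
      (by
        intro f hf
        simp only [univ_unique, sum_const, card_singleton, one_smul, one_mul]
        have h1 := hL f hf
        have h2 := load_nn cl f
        nlinarith)
    have hch : 0 < (a.choose 4 : ℝ) := by
      have : 0 < a.choose 4 := Nat.choose_pos ha4
      exact_mod_cast this
    have h1 : ((1 - ε' / 8) * c) / 24 ≤ (crK a : ℝ) / (24 * (a.choose 4 : ℝ)) := by
      rw [div_le_div_iff₀ (by norm_num) (by positivity)]
      nlinarith
    have h2 : (1 + ε) ^ 4 * (k : ℝ) ^ 4 ≤ cl.K ^ 4 := by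
      rw [← mul_pow]
      exact pow_le_pow_left₀ (by positivity) hK 4
    have h2' : (1 + 4 * ε') * (k : ℝ) ^ 4 ≤ (1 + ε) ^ 4 * (k : ℝ) ^ 4 := by
      refine mul_le_mul_of_nonneg_right ?_ (by positivity)
      have h3 : (1 + ε') ^ 4 ≤ (1 + ε) ^ 4 := pow_le_pow_left₀ (by positivity) (by linarith) 4
      nlinarith [sq_nonneg ε', pow_pos hε'0 3, pow_pos hε'0 4]
    have h3 : 1 - ε' / 8 ≤ 1 - (a : ℝ) ^ 4 * (2 * 1 / κ + 1 / η) /
        (Fintype.card V : ℝ) := by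
      rw [← hM]
      have h4 : M / (Fintype.card V : ℝ) ≤ ε' / 8 := by
        rw [div_le_iff₀ hV0]
        have h5 : ε' / 8 * (8 / ε' * M) = M := by field_simp
        have h6 : ε' / 8 * (8 / ε' * M) ≤ ε' / 8 * (Fintype.card V : ℝ) :=
          mul_le_mul_of_nonneg_left (hkM.trans hVR) (by positivity)
        linarith
      linarith
    have h4 : (1 + B0 1 κ η * 1 ^ 4 / ((a : ℝ) - 3)) * (D.cr : ℝ) ≤
        (1 + ε' / 8) * (D.cr : ℝ) := by
      refine mul_le_mul_of_nonneg_right ?_ (Nat.cast_nonneg _)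
      rw [← hB]
      linarith
    have hk4' : (0 : ℝ) ≤ (k : ℝ) ^ 4 := by positivity
    have h5 : ((1 - ε' / 8) * c) / 24 * ((1 + 4 * ε') * (k : ℝ) ^ 4) * (1 - ε' / 8) ≤
        (crK a : ℝ) / (24 * (a.choose 4 : ℝ)) * cl.K ^ 4 *
        (1 - (a : ℝ) ^ 4 * (2 * 1 / κ + 1 / η) / (Fintype.card V : ℝ)) := by
      have h6 : 0 ≤ (crK a : ℝ) / (24 * (a.choose 4 : ℝ)) := by positivity
      have h7 : 0 ≤ cl.K ^ 4 := by positivity
      refine mul_le_mul (mul_le_mul h1 (h2'.trans h2) (by positivity) h6) h3 (by linarith)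
        (mul_nonneg h6 h7)
    have h6 : ((1 - ε' / 8) * c) / 24 * ((1 + 4 * ε') * (k : ℝ) ^ 4) * (1 - ε' / 8) ≤
        (1 + ε' / 8) * (D.cr : ℝ) := h5.trans (hmix.trans h4)
    have hk4 : (0 : ℝ) ≤ c * (k : ℝ) ^ 4 := by positivity
    have h7 : c * (k : ℝ) ^ 4 / 24 ≤ (D.cr : ℝ) := by
      have h8 : (1 + ε' / 8) * (c * (k : ℝ) ^ 4 / 24) ≤
          ((1 - ε' / 8) * c) / 24 * ((1 + 4 * ε') * (k : ℝ) ^ 4) * (1 - ε' / 8) := by
        have h9 : ((1 - ε' / 8) * c) / 24 * ((1 + 4 * ε') * (k : ℝ) ^ 4) * (1 - ε' / 8) =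
            ((1 - ε' / 8) ^ 2 * (1 + 4 * ε')) * (c * (k : ℝ) ^ 4 / 24) := by ring
        rw [h9]
        refine mul_le_mul_of_nonneg_right ?_ (by positivity)
        nlinarith [mul_pos hε'0 hε'0, pow_pos hε'0 3,
          mul_le_mul_of_nonneg_left hε'1 hε'0.le]
      have h10 : (1 + ε' / 8) * (c * (k : ℝ) ^ 4 / 24) ≤ (1 + ε' / 8) * (D.cr : ℝ) := h8.trans h6
      exact le_of_mul_le_mul_left h10 (by positivity)
    have h8' : (k.choose 4 : ℝ) ≤ (k : ℝ) ^ 4 / 24 := by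
      have := Nat.choose_le_pow_div (α := ℝ) 4 k
      have h24 : ((Nat.factorial 4 : ℕ) : ℝ) = 24 := by norm_num [Nat.factorial]
      rwa [h24] at this
    have h9 : (crK k : ℝ) ≤ (D.cr : ℝ) := by
      calc (crK k : ℝ) ≤ c * (k.choose 4 : ℝ) := hck k
        _ ≤ c * ((k : ℝ) ^ 4 / 24) := mul_le_mul_of_nonneg_left h8' hc.le
        _ = c * (k : ℝ) ^ 4 / 24 := by ring
        _ ≤ _ := h7
    exact_mod_cast h9

end Pool.Agent.ALD
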