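import Mathlib

/-!
# ALD NM: the load inequalities (real numbers only)

`k` colours, component `Q` with `s` vertices and `a` colours, weight `x = a / s + δ`, `m` non-neighbours,
`n - s` routes.

`hub_num`: if `s` is bounded use `m ≤ s - 1`, `n - s ≥ k - a ≥ k / 4`.  Otherwise `x ^ 2 ≤ 1 - x` and
`(1 - x) (n - s) - x ^ 2 (n - (1 + e) k)` is increasing in `n - s`, so take `n - s = k - a`; with
`x = a / s` it is `(1 - x) (k - a (1 + x)) + x ^ 2 e k`, at least `c k`.
`two_num`: `s' ≤ s`, so `s' ≤ n / 2`.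
If `s' ≤ k / 3` the last term is at most `.1 +`, and `x x' + x ^ 2 m / (n - s) ≤ .75 +`.
If `s' ≥ k / 3` then `n - s ≥ k - a + (s' - 1) / 2` and the three terms are at most `.25 +`, `.42 +`, `.25 +`.
-/

set_option autoImplicit false

namespace Pool.Agent.ALD

theorem hub_num {C e : ℝ} (hC : 1 ≤ C) (he : 0 < e) (he1 : e ≤ 1 / 10) :
    ∃ δ₀ : ℝ, 0 < δ₀ ∧ ∃ k₀ : ℝ, ∀ δ : ℝ, 0 ≤ δ → δ ≤ δ₀ → ∀ k a s n m : ℝ, k₀ ≤ k → 1 ≤ a →
      2 * a ≤ s + 1 → 2 ≤ s → a ≤ (2 / 3 + e / 100) * k → k - a ≤ n - s → n ≤ C * k →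
      0 ≤ m → m ≤ s - 1 → m ≤ n - (1 + e) * k →
      (a / s + δ) + (a / s + δ) ^ 2 * m / (n - s) ≤ 1 := by
  refine ⟨min (e / (120 * C)) (1 / 100), lt_min (by positivity) (by norm_num), 200 / e, ?_⟩
  intro δ hδ hδ1 k a s n m hk ha has hs hak hN hn hm0 hm1 hm2
  have hδ2 : δ ≤ 1 / 100 := hδ1.trans (min_le_right _ _)
  have hδ3 : δ * (120 * C) ≤ e := by
    have h := hδ1.trans (min_le_left _ _)
    rwa [le_div_iff₀ (by positivity)] at h
  have hkp : 0 < k := lt_of_lt_of_le (by positivity) hk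
  have hk' : 200 ≤ k * e := by rwa [div_le_iff₀ he] at hk
  have hk0 : 2000 ≤ k := by
    have h1 := mul_le_mul_of_nonneg_left he1 hkp.le
    linarith
  have hek : e / 100 * k ≤ 1 / 1000 * k := mul_le_mul_of_nonneg_right (by linarith) hkp.le
  have hs0 : 0 < s := by linarith
  set y : ℝ := a / s with hy
  have hys : y * s = a := by rw [hy]; field_simp
  have hy0 : 0 < y := by rw [hy]; positivity
  obtain ⟨N, hNd⟩ : ∃ N : ℝ, N = n - s := ⟨_, rfl⟩
  have hN4 : k / 4 ≤ N := by
    rw [hNd]
    linarith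
  have hNp : 0 < N := by linarith
  have hNC : N ≤ C * k := by linarith
  rw [← hNd] at hN ⊢
  have hm3 : m ≤ s + N - (1 + e) * k := by linarith
  suffices h : (y + δ) ^ 2 * m ≤ (1 - (y + δ)) * N by
    have h1 : (y + δ) ^ 2 * m / N ≤ 1 - (y + δ) := by
      rw [div_le_iff₀ hNp]
      exact h
    linarith
  by_cases hs2 : s ≤ 10 / e
  · rw [le_div_iff₀ he] at hs2
    have hy1 : y ≤ 3 / 4 := by
      rw [hy, div_le_iff₀ hs0]
      linarith
    have h1 : s ≤ k / 20 := by
      have h2 : s * e ≤ k / 20 * e := by linarith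
      exact le_of_mul_le_mul_right h2 he
    have h3 : (y + δ) ^ 2 ≤ 16 / 25 := by
      have h4 : (y + δ) ^ 2 ≤ (4 / 5) ^ 2 := pow_le_pow_left₀ (by positivity) (by linarith) 2
      linarith
    have h4 : (y + δ) ^ 2 * m ≤ 16 / 25 * m := mul_le_mul_of_nonneg_right h3 hm0
    have h5 : (1 / 5) * N ≤ (1 - (y + δ)) * N := mul_le_mul_of_nonneg_right (by linarith) hNp.le
    linarith
  · have hs3 : 10 / e < s := not_le.1 hs2
    rw [div_lt_iff₀ he] at hs3
    have hy1 : 2 * y - 1 ≤ e / 10 := by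
      by_contra h
      have h1 : e / 10 < 2 * y - 1 := not_le.1 h
      have h2 : (2 * y - 1) * s ≤ 1 := by
        have h3 : (2 * y - 1) * s = 2 * (y * s) - s := by ring
        rw [h3, hys]
        linarith
      have h3 : e / 10 * s < (2 * y - 1) * s := mul_lt_mul_of_pos_right h1 hs0
      linarith
    have hy2 : y ≤ 101 / 200 := by linarith
    have hyy : y * y ≤ 101 / 200 * (101 / 200) := mul_le_mul hy2 hy2 hy0.le (by norm_num)
    -- the function at `y`
    have h1 : (1 - y) * (k - (1 + y) * a) + e * y ^ 2 * k ≤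
        (1 - y) * N - y ^ 2 * (s + N - (1 + e) * k) := by
      have h2 : (1 - y) * N - y ^ 2 * (s + N - (1 + e) * k) -
          ((1 - y) * (k - (1 + y) * a) + e * y ^ 2 * k) = (1 - y - y ^ 2) * (N - (k - a)) := by
        have h3 : y ^ 2 * s = y * a := by rw [← hys]; ring
        linear_combination (-1) * h3
      have h3 : 0 ≤ (1 - y - y ^ 2) * (N - (k - a)) := by
        refine mul_nonneg ?_ (by linarith)
        have h4 : y ^ 2 = y * y := by ring
        linarith
      linarith
    have h2 : e / 40 * k ≤ (1 - y) * (k - (1 + y) * a) + e * y ^ 2 * k := by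
      have h3 : (1 - y) * ((1 + y) * a) ≤ (1 - y) * ((1 + y) * ((2 / 3 + e / 100) * k)) := by
        refine mul_le_mul_of_nonneg_left ?_ (by linarith)
        exact mul_le_mul_of_nonneg_left hak (by linarith)
      have h4 : e / 40 * k ≤ ((1 - y) * (1 - (1 + y) * (2 / 3 + e / 100)) + e * y ^ 2) * k := by
        refine mul_le_mul_of_nonneg_right ?_ hkp.le
        by_cases hy3 : y ≤ 1 / 4
        · have h5 : (1 + y) * (2 / 3 + e / 100) ≤ 5 / 4 * (67 / 100) :=
            mul_le_mul (by linarith) (by linarith) (by positivity) (by norm_num)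
          have h6 : 3 / 4 * (1 / 10) ≤ (1 - y) * (1 - (1 + y) * (2 / 3 + e / 100)) :=
            mul_le_mul (by linarith) (by linarith) (by norm_num) (by linarith)
          have h7 : 0 ≤ e * y ^ 2 := by positivity
          linarith
        · have hy4 : 1 / 4 < y := not_le.1 hy3
          have h5 : e * (1 / 16) ≤ e * y ^ 2 := by
            refine mul_le_mul_of_nonneg_left ?_ he.le
            have h6 : (1 / 4 : ℝ) * (1 / 4) ≤ y * y := mul_le_mul hy4.le hy4.le (by norm_num) hy0.le
            have h7 : y ^ 2 = y * y := by ring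
            linarith
          have h6 : (1 - y) * (1 - (1 + y) * (2 / 3 + e / 100)) =
              (1 - y) * (1 - 2 * y) / 3 - (1 - y ^ 2) * (e / 100) := by ring
          have h7 : -(e / 40) ≤ (1 - y) * (1 - 2 * y) / 3 := by
            have h8 : 0 ≤ (1 - y) * (e / 10 - (2 * y - 1)) := mul_nonneg (by linarith) (by linarith)
            have h9 : (1 - y) * (e / 10) ≤ 3 / 4 * (e / 10) :=
              mul_le_mul_of_nonneg_right (by linarith) (by positivity)
            have h10 : (1 - y) * (1 - 2 * y) =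
                (1 - y) * (e / 10 - (2 * y - 1)) - (1 - y) * (e / 10) := by ring
            rw [h10]
            linarith
          have h8 : (1 - y ^ 2) * (e / 100) ≤ 1 * (e / 100) := by
            refine mul_le_mul_of_nonneg_right ?_ (by positivity)
            have := sq_nonneg y
            linarith
          rw [h6]
          linarith
      have h5 : ((1 - y) * (1 - (1 + y) * (2 / 3 + e / 100)) + e * y ^ 2) * k =
          (1 - y) * k - (1 - y) * ((1 + y) * ((2 / 3 + e / 100) * k)) + e * y ^ 2 * k := by ring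
      have h6 : (1 - y) * (k - (1 + y) * a) = (1 - y) * k - (1 - y) * ((1 + y) * a) := by ring
      rw [h5] at h4
      rw [h6]
      linarith
    have h3 : (y + δ) ^ 2 * m ≤ (y + δ) ^ 2 * (s + N - (1 + e) * k) :=
      mul_le_mul_of_nonneg_left hm3 (sq_nonneg _)
    have hM0 : 0 ≤ s + N - (1 + e) * k := by linarith
    have hM1 : s + N - (1 + e) * k ≤ C * k := by
      have h4 : 0 ≤ (1 + e) * k := by positivity
      linarith
    have hCk : 0 ≤ C * k := by positivity
    have h4 : (y + δ) ^ 2 * (s + N - (1 + e) * k) ≤ y ^ 2 * (s + N - (1 + e) * k) +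
        2 * δ * (C * k) := by
      have h5 : (y + δ) ^ 2 = y ^ 2 + (2 * y + δ) * δ := by ring
      have h6 : (2 * y + δ) * δ ≤ 2 * δ := mul_le_mul_of_nonneg_right (by linarith) hδ
      have h7 : (2 * y + δ) * δ * (s + N - (1 + e) * k) ≤ 2 * δ * (C * k) :=
        mul_le_mul h6 hM1 hM0 (by positivity)
      rw [h5, add_mul]
      linarith
    have h5 : δ * N ≤ δ * (C * k) := mul_le_mul_of_nonneg_left hNC hδ
    have h6 : 3 * (δ * (C * k)) ≤ e / 40 * k := by
      have h7 : δ * (120 * C) * k ≤ e * k := mul_le_mul_of_nonneg_right hδ3 hkp.le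
      have h8 : δ * (120 * C) * k = 120 * (δ * (C * k)) := by ring
      linarith
    have h7 : (1 - (y + δ)) * N = (1 - y) * N - δ * N := by ring
    rw [h7]
    linarith

theorem two_num {C e : ℝ} (hC : 1 ≤ C) (he : 0 < e) (he1 : e ≤ 1 / 10) :
    ∃ δ₀ : ℝ, 0 < δ₀ ∧ ∃ k₀ : ℝ, ∀ δ : ℝ, 0 ≤ δ → δ ≤ δ₀ → ∀ k a s m a' s' m' n : ℝ, k₀ ≤ k →
      1 ≤ a → 2 * a ≤ s + 1 → 2 ≤ s → a ≤ (2 / 3 + e / 100) * k →
      1 ≤ a' → 2 * a' ≤ s' + 1 → 2 ≤ s' → s' ≤ s → a + a' ≤ k →
      s + s' + (k - a - a') ≤ n → n ≤ C * k →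
      0 ≤ m → m ≤ s - 1 → m ≤ n - (1 + e) * k → 0 ≤ m' → m' ≤ s' - 1 →
      (a / s + δ) * (a' / s' + δ) + (a / s + δ) ^ 2 * m / (n - s) +
        (a' / s' + δ) ^ 2 * m' / (n - s') ≤ 1 := by
  refine ⟨1 / (10000 * C), by positivity, 100000, ?_⟩
  intro δ hδ hδ1 k a s m a' s' m' n hk ha has hs hak ha' has' hs' hss haa hN hn hm0 hm1 hm2
    hm0' hm1'
  have hδC : δ * (10000 * C) ≤ 1 := by rwa [le_div_iff₀ (by positivity)] at hδ1
  have hδ2 : δ ≤ 1 / 10000 := by
    have h1 : δ * 10000 * 1 ≤ δ * 10000 * C := mul_le_mul_of_nonneg_left hC (by positivity)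
    linarith
  have hkp : 0 < k := by linarith
  have hak' : a ≤ (2 / 3 + 1 / 1000) * k := by
    have h1 : e / 100 * k ≤ 1 / 1000 * k := mul_le_mul_of_nonneg_right (by linarith) hkp.le
    linarith
  have hs0 : 0 < s := by linarith
  have hs0' : 0 < s' := by linarith
  set y : ℝ := a / s with hy
  set y' : ℝ := a' / s' with hy'
  have hys : y * s = a := by rw [hy]; field_simp
  have hys' : y' * s' = a' := by rw [hy']; field_simp
  have hy0 : 0 < y := by rw [hy]; positivity
  have hy0' : 0 < y' := by rw [hy']; positivity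
  have hy34 : y ≤ 3 / 4 := by
    rw [hy, div_le_iff₀ hs0]
    linarith
  have hy34' : y' ≤ 3 / 4 := by
    rw [hy', div_le_iff₀ hs0']
    linarith
  obtain ⟨N, hNd⟩ : ∃ N : ℝ, N = n - s := ⟨_, rfl⟩
  obtain ⟨N', hNd'⟩ : ∃ N' : ℝ, N' = n - s' := ⟨_, rfl⟩
  have hN1 : k - a + (s' - 1) / 2 ≤ N := by linarith
  have hN2 : k - a ≤ N := by linarith
  have hN4 : k / 4 ≤ N := by linarith
  have hNp : 0 < N := by linarith
  have hN1' : k - 1 ≤ N' := by linarith
  have hN2' : s ≤ N' := by linarith
  have hNp' : 0 < N' := by linarith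
  rw [← hNd, ← hNd']
  have hm3 : m ≤ s + N - k := by
    have h1 : 0 ≤ e * k := by positivity
    linarith
  have hmC : m ≤ C * k := by
    have h1 : 0 ≤ (1 + e) * k := by positivity
    linarith
  have hCk : 0 ≤ C * k := by positivity
  -- from `x` to `y` in the second term
  have hA : ∀ ρ : ℝ, y ^ 2 * m ≤ ρ * N → (y + δ) ^ 2 * m / N ≤ ρ + 1 / 1000 := by
    intro ρ hρ
    rw [div_le_iff₀ hNp]
    have h5 : (y + δ) ^ 2 = y ^ 2 + (2 * y + δ) * δ := by ring
    have h6 : (2 * y + δ) * δ ≤ 2 * δ := mul_le_mul_of_nonneg_right (by linarith) hδ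
    have h7 : (2 * y + δ) * δ * m ≤ 2 * δ * (C * k) :=
      mul_le_mul h6 hmC hm0 (by positivity)
    have h8 : 2 * δ * (C * k) ≤ 1 / 1000 * (k / 4) := by
      have h9 : δ * (10000 * C) * k ≤ 1 * k := mul_le_mul_of_nonneg_right hδC hkp.le
      linarith
    have h9 : 1 / 1000 * (k / 4) ≤ 1 / 1000 * N := mul_le_mul_of_nonneg_left hN4 (by norm_num)
    rw [h5, add_mul, add_mul]
    linarith
  have hx34' : (y' + δ) ^ 2 ≤ 3 / 5 := by
    have h4 : (y' + δ) ^ 2 ≤ (3 / 4 + 1 / 10000) ^ 2 :=
      pow_le_pow_left₀ (by positivity) (by linarith) 2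
    norm_num at h4 ⊢
    linarith
  by_cases hS : s ≤ 200
  · have h1 : (y + δ) ^ 2 * m / N ≤ 1 / 50 + 1 / 1000 := by
      refine hA _ ?_
      have h2 : y ^ 2 ≤ 1 := by
        have h3 : y ^ 2 ≤ 1 ^ 2 := pow_le_pow_left₀ hy0.le (by linarith) 2
        linarith
      have h3 : y ^ 2 * m ≤ 1 * m := mul_le_mul_of_nonneg_right h2 hm0
      linarith
    have h2 : (y' + δ) ^ 2 * m' / N' ≤ 1 / 50 := by
      rw [div_le_iff₀ hNp']
      have h3 : (y' + δ) ^ 2 * m' ≤ 3 / 5 * m' := mul_le_mul_of_nonneg_right hx34' hm0'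
      linarith
    have h3 : (y + δ) * (y' + δ) ≤ (3 / 4 + 1 / 10000) * (3 / 4 + 1 / 10000) :=
      mul_le_mul (by linarith) (by linarith) (by positivity) (by norm_num)
    norm_num at h1 h2 h3 ⊢
    linarith
  · have hS1 : 200 < s := not_le.1 hS
    have hy1 : y ≤ 201 / 400 := by
      rw [hy, div_le_iff₀ hs0]
      linarith
    -- first bound of the second term
    have hA1 : (y + δ) ^ 2 * m / N ≤ (201 / 100 * y - 2 * y ^ 2) + 1 / 1000 := by
      refine hA _ ?_
      have h1 : y ^ 2 * m ≤ y ^ 2 * (s + N - k) := mul_le_mul_of_nonneg_left hm3 (sq_nonneg y)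
      have h2 : y ^ 2 * (s + N - k) = y * (a - y * k) + y ^ 2 * N := by
        rw [← hys]
        ring
      have h3 : a - y * k ≤ (201 / 100 - 3 * y) * N := by
        have h4 : (201 / 100 - 3 * y) * (k - a) ≤ (201 / 100 - 3 * y) * N :=
          mul_le_mul_of_nonneg_left hN2 (by linarith)
        have h5 : a * (301 / 100 - 3 * y) ≤ (2 / 3 + 1 / 1000) * k * (301 / 100 - 3 * y) :=
          mul_le_mul_of_nonneg_right hak' (by linarith)
        have h6 : 0 ≤ y * k := by positivity
        have h7 : (2 / 3 + 1 / 1000) * k * (301 / 100 - 3 * y) ≤ (201 / 100 - 2 * y) * k := by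
          have h8 : (2 / 3 + 1 / 1000) * k * (301 / 100 - 3 * y) =
              (2 / 3 + 1 / 1000) * (301 / 100) * k - (2 + 3 / 1000) * (y * k) := by ring
          have h9 : (201 / 100 - 2 * y) * k = 201 / 100 * k - 2 * (y * k) := by ring
          rw [h8, h9]
          linarith
        linarith
      have h4 : y * (a - y * k) ≤ y * ((201 / 100 - 3 * y) * N) :=
        mul_le_mul_of_nonneg_left h3 hy0.le
      have h5 : y * ((201 / 100 - 3 * y) * N) + y ^ 2 * N =
          (201 / 100 * y - 2 * y ^ 2) * N := by ring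
      linarith
    by_cases hS' : s' ≤ 200
    · have h2 : (y' + δ) ^ 2 * m' / N' ≤ 1 / 50 := by
        rw [div_le_iff₀ hNp']
        have h3 : (y' + δ) ^ 2 * m' ≤ 3 / 5 * m' := mul_le_mul_of_nonneg_right hx34' hm0'
        linarith
      have h3 : (y + δ) * (y' + δ) ≤ (y + 1 / 10000) * (3 / 4 + 1 / 10000) :=
        mul_le_mul (by linarith) (by linarith) (by positivity) (by positivity)
      have h4 : 0 ≤ (201 / 400 - y) * (3 / 4 + 1 / 10000 + 201 / 100 - 2 * (y + 201 / 400)) :=
        mul_nonneg (by linarith) (by linarith)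
      have h5 : (201 / 400 - y) * (3 / 4 + 1 / 10000 + 201 / 100 - 2 * (y + 201 / 400)) =
          2 * y ^ 2 - (3 / 4 + 1 / 10000 + 201 / 100) * y +
          201 / 400 * (3 / 4 + 1 / 10000 + 201 / 100 - 2 * (201 / 400)) := by ring
      rw [h5] at h4
      linarith
    · have hS1' : 200 < s' := not_le.1 hS'
      have hy1' : y' ≤ 201 / 400 := by
        rw [hy', div_le_iff₀ hs0']
        linarith
      have hx' : (y' + δ) ^ 2 ≤ 507 / 2000 := by
        have h4 : (y' + δ) ^ 2 ≤ (201 / 400 + 1 / 10000) ^ 2 :=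
          pow_le_pow_left₀ (by positivity) (by linarith) 2
        norm_num at h4 ⊢
        linarith
      have h3 : (y + δ) * (y' + δ) ≤ (y + 1 / 10000) * (201 / 400 + 1 / 10000) :=
        mul_le_mul (by linarith) (by linarith) (by positivity) (by positivity)
      by_cases hk3 : s' ≤ k / 3
      · have h2 : (y' + δ) ^ 2 * m' / N' ≤ 9 / 100 := by
          rw [div_le_iff₀ hNp']
          have h3 : (y' + δ) ^ 2 * m' ≤ 507 / 2000 * m' := mul_le_mul_of_nonneg_right hx' hm0'
          linarith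
        have h4 : 0 ≤ (201 / 400 - y) * (201 / 400 + 1 / 10000 + 201 / 100 -
            2 * (y + 201 / 400)) := mul_nonneg (by linarith) (by linarith)
        have h5 : (201 / 400 - y) * (201 / 400 + 1 / 10000 + 201 / 100 - 2 * (y + 201 / 400)) =
            2 * y ^ 2 - (201 / 400 + 1 / 10000 + 201 / 100) * y +
            201 / 400 * (201 / 400 + 1 / 10000 + 201 / 100 - 2 * (201 / 400)) := by ring
        rw [h5] at h4
        linarith
      · have hk4 : k / 3 < s' := not_le.1 hk3
        have h2 : (y' + δ) ^ 2 * m' / N' ≤ 507 / 2000 := by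
          rw [div_le_iff₀ hNp']
          have h3 : (y' + δ) ^ 2 * m' ≤ 507 / 2000 * m' := mul_le_mul_of_nonneg_right hx' hm0'
          linarith
        have hA2 : (y + δ) ^ 2 * m / N ≤ (6717 / 5000 * y - y ^ 2) + 1 / 1000 := by
          refine hA _ ?_
          have h1 : y ^ 2 * m ≤ y ^ 2 * (s + N - k) :=
            mul_le_mul_of_nonneg_left hm3 (sq_nonneg y)
          have h2 : y ^ 2 * (s + N - k) = y * (a - y * k) + y ^ 2 * N := by
            rw [← hys]
            ring
          have h3 : a - y * k ≤ (6717 / 5000 - 2 * y) * N := by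
            have h4 : (6717 / 5000 - 2 * y) * (1457 / 1250 * k - a) ≤
                (6717 / 5000 - 2 * y) * N :=
              mul_le_mul_of_nonneg_left (by linarith) (by linarith)
            have h5 : a * (11717 / 5000 - 2 * y) ≤
                (2 / 3 + 1 / 1000) * k * (11717 / 5000 - 2 * y) :=
              mul_le_mul_of_nonneg_right hak' (by linarith)
            have h6 : 0 ≤ y * k := by positivity
            have h8 : (2 / 3 + 1 / 1000) * k * (11717 / 5000 - 2 * y) =
                (2 / 3 + 1 / 1000) * (11717 / 5000) * k -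
                  2 * (2 / 3 + 1 / 1000) * (y * k) := by ring
            have h9 : (6717 / 5000 - 2 * y) * (1457 / 1250 * k - a) =
                6717 / 5000 * (1457 / 1250) * k - 2 * (1457 / 1250) * (y * k) -
                  a * (11717 / 5000 - 2 * y) + a := by ring
            rw [h9] at h4
            rw [h8] at h5
            linarith
          have h4 : y * (a - y * k) ≤ y * ((6717 / 5000 - 2 * y) * N) :=
            mul_le_mul_of_nonneg_left h3 hy0.le
          have h5 : y * ((6717 / 5000 - 2 * y) * N) + y ^ 2 * N =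
              (6717 / 5000 * y - y ^ 2) * N := by ring
          linarith
        have h4 : 0 ≤ (201 / 400 - y) * (201 / 400 + 1 / 10000 + 6717 / 5000 -
            (y + 201 / 400)) := mul_nonneg (by linarith) (by linarith)
        have h5 : (201 / 400 - y) * (201 / 400 + 1 / 10000 + 6717 / 5000 - (y + 201 / 400)) =
            y ^ 2 - (201 / 400 + 1 / 10000 + 6717 / 5000) * y +
            201 / 400 * (201 / 400 + 1 / 10000 + 6717 / 5000 - 201 / 400) := by ring
        rw [h5] at h4
        linarith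

end Pool.Agent.ALD
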