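import Pool.Agent.ALD.Kq
import Pool.Agent.ALD.Ca
import Pool.Agent.ALD.Nm

/-!
# ALD CL: the cloud of a critical graph

Weight `kq / cs` on the component (and `+ δ` if it is not a single vertex), routes through all
vertices outside the component.
-/

set_option autoImplicit false

namespace Pool.Agent.ALD

open Finset Pool.Agent.ALB Pool.Agent.ALC

variable {V : Type} [Fintype V] {H : SimpleGraph V} {r : ℕ}

open Classical in
/-- the weight -/
noncomputable def xw (H : SimpleGraph V) (f : V → Fin (r + 1)) (δ : ℝ) (v : V) : ℝ :=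
  (kq H f v : ℝ) / (cs H v : ℝ) + (if cs H v = 1 then 0 else δ)

open Classical in
/-- the middle vertices -/
noncomputable def Rr (H : SimpleGraph V) (u v : V) : Finset V :=
  univ.filter (fun w => ¬ Hᶜ.Reachable u w ∧ ¬ Hᶜ.Reachable v w)

open Classical in
/-- the number of non-neighbours -/
noncomputable def mm (H : SimpleGraph V) (a : V) : ℕ :=
  (univ.filter (fun v => v ≠ a ∧ ¬ H.Adj a v)).card

/-- the hypotheses -/
structure Hy (H : SimpleGraph V) (f : V → Fin (r + 1)) (C e : ℝ) : Prop where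
  vc : VC H r
  opt : Opt H f
  big : ∀ v, (kq H f v : ℝ) ≤ (2 / 3 + e / 100) * ((r : ℝ) + 1)
  upp : (Fintype.card V : ℝ) ≤ C * ((r : ℝ) + 1)
  deg : ∀ v, (mm H v : ℝ) ≤ (Fintype.card V : ℝ) - (1 + e) * ((r : ℝ) + 1)

theorem mm_le (a : V) : mm H a + 1 ≤ cs H a := by
  classical
  have h1 : insert a (univ.filter (fun v => v ≠ a ∧ ¬ H.Adj a v)) ⊆ Cm H a := by
    intro v hv
    rw [mem_insert, mem_filter] at hv
    rcases hv with rfl | ⟨-, h2, h3⟩
    · exact self_mem _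
    · rw [mem_Cm]
      refine SimpleGraph.Adj.reachable ?_
      rw [SimpleGraph.compl_adj]
      exact ⟨h2.symm, h3⟩
  have h2 := card_le_card h1
  rw [card_insert_of_notMem (by simp), card_Cm] at h2
  have h3 : mm H a = (univ.filter (fun v => v ≠ a ∧ ¬ H.Adj a v)).card := by
    unfold mm
    congr
  omega

theorem xw_eq {f : V → Fin (r + 1)} {δ : ℝ} {u v : V} (h : Hᶜ.Reachable u v) :
    xw H f δ u = xw H f δ v := by
  unfold xw
  rw [kq_eq h, cs_eq h]

theorem Rr_comm (u v : V) : Rr H u v = Rr H v u := by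
  ext w
  unfold Rr
  simp only [mem_filter, mem_univ, true_and]
  exact and_comm

theorem Rr_card {u v : V} (h : Hᶜ.Reachable u v) :
    ((Rr H u v).card : ℝ) = (Fintype.card V : ℝ) - (cs H u : ℝ) := by
  classical
  have h1 : Rr H u v = univ \ Cm H u := by
    ext w
    unfold Rr
    simp only [mem_filter, mem_univ, true_and, mem_sdiff, mem_Cm]
    exact ⟨fun h2 => h2.1, fun h2 => ⟨h2, fun h3 => h2 (h.trans h3)⟩⟩
  rw [h1, card_sdiff_of_subset (subset_univ _), card_univ, card_Cm, Nat.cast_sub]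
  rw [← card_Cm]
  exact card_le_univ _

theorem reach_of {u v : V} (h : ¬ H.Adj u v) : Hᶜ.Reachable u v := by
  by_contra h1
  exact h (adj_of h1)

theorem mem_Rr {u v w : V} : w ∈ Rr H u v ↔ ¬ Hᶜ.Reachable u w ∧ ¬ Hᶜ.Reachable v w := by
  unfold Rr
  simp

theorem xw_nonneg {f : V → Fin (r + 1)} {δ : ℝ} (hδ : 0 ≤ δ) (v : V) : 0 ≤ xw H f δ v := by
  unfold xw
  split_ifs <;> positivity

theorem xw_one {f : V → Fin (r + 1)} {δ : ℝ} {v : V} (h : cs H v = 1) : xw H f δ v = 1 := by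
  unfold xw
  have h1 := kq_pos (H := H) f v
  have h2 := kq_le_cs (H := H) f v
  have h3 : kq H f v = 1 := by omega
  rw [if_pos h, h3, h]
  norm_num

theorem xw_big {f : V → Fin (r + 1)} {δ : ℝ} {v : V} (h : cs H v ≠ 1) :
    xw H f δ v = (kq H f v : ℝ) / (cs H v : ℝ) + δ := by
  unfold xw
  rw [if_neg h]

theorem xw_le (h : VC H r) {f : V → Fin (r + 1)} (hf : Opt H f) {δ : ℝ} (hδ1 : δ ≤ 1 / 8)
    (v : V) : xw H f δ v ≤ 1 := by
  by_cases hv : cs H v = 1
  · rw [xw_one hv]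
  · rw [xw_big hv]
    have h1 := cs_pos (H := H) v
    have h2 : 2 ≤ cs H v := by omega
    have h3 := two_kq h hf v
    have h4 : (2 : ℝ) ≤ (cs H v : ℝ) := by exact_mod_cast h2
    have h5 : 2 * (kq H f v : ℝ) ≤ (cs H v : ℝ) + 1 := by exact_mod_cast h3
    have h6 : (kq H f v : ℝ) / (cs H v : ℝ) ≤ 3 / 4 := by
      rw [div_le_iff₀ (by linarith)]
      linarith
    linarith

theorem hubs_le (f : V → Fin (r + 1)) (hf : Pc H f) :
    ∃ S : Finset V, S.card ≤ r + 1 ∧ ∀ v, v ∈ S ↔ cs H v = 1 := by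
  classical
  refine ⟨univ.filter (fun v => cs H v = 1), ?_, fun v => by simp⟩
  have h1 : (univ.filter (fun v => cs H v = 1)).card ≤ (univ : Finset (Fin (r + 1))).card := by
    refine card_le_card_of_injOn f (fun _ _ => mem_coe.2 (mem_univ _)) ?_
    intro x hx y hy hxy
    rw [mem_coe, mem_filter] at hx hy
    have h2 := same_col hf hxy
    by_contra hne
    have h3 : ({x, y} : Finset V) ⊆ Cm H x := by
      intro z hz
      rw [mem_insert, mem_singleton] at hz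
      rcases hz with rfl | rfl
      · exact self_mem _
      · exact mem_Cm.2 h2
    have h4 := card_le_card h3
    rw [card_pair hne, card_Cm, hx.2] at h4
    omega
  rwa [card_univ, Fintype.card_fin] at h1

theorem sum_xw (h : VC H r) {f : V → Fin (r + 1)} (hf : Opt H f) {δ : ℝ} (hδ : 0 ≤ δ) :
    ((r : ℝ) + 1) + δ * ((Fintype.card V : ℝ) - ((r : ℝ) + 1)) ≤ ∑ v : V, xw H f δ v := by
  classical
  obtain ⟨S, hS, hS2⟩ := hubs_le (H := H) f hf.1
  have h1 : ∑ v : V, xw H f δ v = ∑ v : V, (kq H f v : ℝ) / (cs H v : ℝ) +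
      ∑ v : V, (if cs H v = 1 then 0 else δ) := by
    rw [← sum_add_distrib]
    refine sum_congr rfl fun v _ => ?_
    unfold xw
    congr
  have h2 : ∑ v : V, (if cs H v = 1 then 0 else δ) =
      δ * ((Fintype.card V : ℝ) - (S.card : ℝ)) := by
    have h3 : ∑ v : V, (if cs H v = 1 then 0 else δ) = ∑ v ∈ univ \ S, δ := by
      rw [← sum_sdiff (subset_univ S)]
      have h4 : ∑ v ∈ S, (if cs H v = 1 then 0 else δ) = 0 := by
        refine sum_eq_zero fun v hv => ?_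
        rw [if_pos ((hS2 v).1 hv)]
      rw [h4, add_zero]
      refine sum_congr rfl fun v hv => ?_
      rw [mem_sdiff] at hv
      rw [if_neg (fun h5 => hv.2 ((hS2 v).2 h5))]
    rw [h3, sum_const, nsmul_eq_mul, card_sdiff_of_subset (subset_univ _), card_univ,
      Nat.cast_sub (card_le_univ _)]
    ring
  have h3 := sum_kq h hf
  have h4 : (S.card : ℝ) ≤ (r : ℝ) + 1 := by exact_mod_cast hS
  rw [h1, h2]
  have h5 : δ * ((Fintype.card V : ℝ) - ((r : ℝ) + 1)) ≤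
      δ * ((Fintype.card V : ℝ) - (S.card : ℝ)) := mul_le_mul_of_nonneg_left (by linarith) hδ
  linarith

/-- routes: `η = 1 / (4 C)` -/
theorem out_ge {f : V → Fin (r + 1)} {C e : ℝ} (hC : 1 ≤ C) (he1 : e ≤ 1 / 10)
    (h : Hy H f C e) (v : V) :
    1 / (4 * C) * (Fintype.card V : ℝ) ≤ (Fintype.card V : ℝ) - (cs H v : ℝ) := by
  have h1 := one_cmp h.vc.nc h.opt.1 v
  have h2 : (cs H v : ℝ) + ((r : ℝ) + 1) ≤ (Fintype.card V : ℝ) + (kq H f v : ℝ) := by
    exact_mod_cast h1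
  have h3 := h.big v
  have h4 := h.upp
  have hr : (0 : ℝ) ≤ (r : ℝ) := Nat.cast_nonneg r
  have h5 : 1 / (4 * C) * (Fintype.card V : ℝ) ≤ ((r : ℝ) + 1) / 4 := by
    rw [div_mul_eq_mul_div, one_mul, div_le_div_iff₀ (by positivity) (by norm_num)]
    linarith
  nlinarith

/-- the cloud -/
noncomputable def cl {f : V → Fin (r + 1)} {C e : ℝ} (hC : 1 ≤ C) (he1 : e ≤ 1 / 10)
    (h : Hy H f C e) {δ : ℝ} (hδ : 0 ≤ δ) (hδ1 : δ ≤ 1 / 8)
    (hV : (r : ℝ) + 1 ≤ (Fintype.card V : ℝ)) : Cloud H 1 (1 / C) (1 / (4 * C)) where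
  x := xw H f δ
  R := Rr H
  x_nonneg := xw_nonneg hδ
  x_le := xw_le h.vc h.opt hδ1
  K_ge := by
    have h1 := sum_xw h.vc h.opt hδ
    have h2 := h.upp
    have h3 : 1 / C * (Fintype.card V : ℝ) ≤ (r : ℝ) + 1 := by
      rw [div_mul_eq_mul_div, one_mul, div_le_iff₀ (by positivity)]
      linarith
    have h4 : 0 ≤ δ * ((Fintype.card V : ℝ) - ((r : ℝ) + 1)) :=
      mul_nonneg hδ (by linarith)
    linarith
  R_symm := Rr_comm
  R_adj := fun u v w hw => by
    rw [mem_Rr] at hw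
    exact ⟨adj_of hw.1, adj_of hw.2⟩
  R_card := fun u v _ huv _ _ => by
    rw [Rr_card (reach_of huv)]
    exact out_ge hC he1 h u

theorem half_eq {f : V → Fin (r + 1)} {C e : ℝ} (hC : 1 ≤ C) (he1 : e ≤ 1 / 10)
    (h : Hy H f C e) {δ : ℝ} (hδ : 0 ≤ δ) (hδ1 : δ ≤ 1 / 8)
    (hV : (r : ℝ) + 1 ≤ (Fintype.card V : ℝ)) {a b : V} (hab : ¬ Hᶜ.Reachable a b) :
    (cl hC he1 h hδ hδ1 hV).half a b =
      (xw H f δ a) ^ 2 * (mm H a : ℝ) / ((Fintype.card V : ℝ) - (cs H a : ℝ)) := by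
  classical
  unfold Cloud.half
  have h1 : (univ.filter (fun v => v ≠ a ∧ ¬ H.Adj a v ∧ b ∈ (cl hC he1 h hδ hδ1 hV).R a v)) =
      univ.filter (fun v => v ≠ a ∧ ¬ H.Adj a v) := by
    ext v
    simp only [mem_filter, mem_univ, true_and]
    constructor
    · rintro ⟨h2, h3, -⟩
      exact ⟨h2, h3⟩
    · rintro ⟨h2, h3⟩
      refine ⟨h2, h3, ?_⟩
      change b ∈ Rr H a v
      rw [mem_Rr]
      exact ⟨hab, fun h4 => hab ((reach_of h3).trans h4)⟩
  have h2 : ∀ v ∈ univ.filter (fun v => v ≠ a ∧ ¬ H.Adj a v),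
      (cl hC he1 h hδ hδ1 hV).x a * (cl hC he1 h hδ hδ1 hV).x v /
        (((cl hC he1 h hδ hδ1 hV).R a v).card : ℝ) =
      (xw H f δ a) ^ 2 / ((Fintype.card V : ℝ) - (cs H a : ℝ)) := by
    intro v hv
    rw [mem_filter] at hv
    have h3 := reach_of hv.2.2
    change xw H f δ a * xw H f δ v / ((Rr H a v).card : ℝ) = _
    rw [Rr_card h3, ← xw_eq h3]
    ring
  have h3 : mm H a = (univ.filter (fun v => v ≠ a ∧ ¬ H.Adj a v)).card := by
    unfold mm
    congr
  calc _ = ∑ v ∈ univ.filter (fun v => v ≠ a ∧ ¬ H.Adj a v),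
      (cl hC he1 h hδ hδ1 hV).x a * (cl hC he1 h hδ hδ1 hV).x v /
        (((cl hC he1 h hδ hδ1 hV).R a v).card : ℝ) := by
        refine sum_congr ?_ fun _ _ => rfl
        rw [← h1]
    _ = _ := by
        rw [sum_congr rfl h2, sum_const, nsmul_eq_mul, ← h3]
        ring

theorem half_zero {f : V → Fin (r + 1)} {C e : ℝ} (hC : 1 ≤ C) (he1 : e ≤ 1 / 10)
    (h : Hy H f C e) {δ : ℝ} (hδ : 0 ≤ δ) (hδ1 : δ ≤ 1 / 8)
    (hV : (r : ℝ) + 1 ≤ (Fintype.card V : ℝ)) {a b : V} (hab : Hᶜ.Reachable a b) :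
    (cl hC he1 h hδ hδ1 hV).half a b = 0 := by
  classical
  unfold Cloud.half
  refine sum_eq_zero fun v hv => ?_
  exfalso
  rw [mem_filter] at hv
  have h2 : b ∈ Rr H a v := hv.2.2.2
  rw [mem_Rr] at h2
  exact h2.1 hab

/-- **critical graphs with `7 r < 6 n`** -/
theorem cl_main {C e : ℝ} (hC : 1 ≤ C) (he : 0 < e) (he1 : e ≤ 1 / 10) :
    ∃ r₀ : ℕ, ∀ (V : Type) (_ : Fintype V) (H : SimpleGraph V) (D : Drw H), D.NoAdj →
      ∀ (r : ℕ) (f : V → Fin (r + 1)), r₀ ≤ r → Hy H f C e → 7 * r < 6 * Fintype.card V →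
      crK (r + 1) ≤ D.cr := by
  classical
  obtain ⟨δ1, hδ1, k1, h1⟩ := hub_num hC he he1
  obtain ⟨δ2, hδ2, k2, h2⟩ := two_num hC he he1
  set δ : ℝ := min (min δ1 δ2) (1 / 8) with hδd
  have hδ : 0 < δ := lt_min (lt_min hδ1 hδ2) (by norm_num)
  have hδa : δ ≤ δ1 := (min_le_left _ _).trans (min_le_left _ _)
  have hδb : δ ≤ δ2 := (min_le_left _ _).trans (min_le_right _ _)
  have hδc : δ ≤ 1 / 8 := min_le_right _ _
  obtain ⟨k3, h3⟩ := cloud_asym (κ := 1 / C) (η := 1 / (4 * C)) (ε := δ / 8) (by positivity)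
    (by positivity) (by positivity)
  refine ⟨max 27 (max k3 (max ⌈k1⌉₊ ⌈k2⌉₊)), ?_⟩
  intro V _ H D hD r f hr hH hV
  simp only [max_le_iff] at hr
  obtain ⟨hr1, hr2, hr3, hr4⟩ := hr
  have hk1 : k1 ≤ (r : ℝ) + 1 := by
    have h4 : ((⌈k1⌉₊ : ℕ) : ℝ) ≤ r := by exact_mod_cast hr3
    have := Nat.le_ceil k1
    linarith
  have hk2 : k2 ≤ (r : ℝ) + 1 := by
    have h4 : ((⌈k2⌉₊ : ℕ) : ℝ) ≤ r := by exact_mod_cast hr4
    have := Nat.le_ceil k2
    linarith
  have hrR : (27 : ℝ) ≤ r := by exact_mod_cast hr1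
  have hVR : 7 * (r : ℝ) < 6 * (Fintype.card V : ℝ) := by exact_mod_cast hV
  have hV1 : (r : ℝ) + 1 ≤ (Fintype.card V : ℝ) := by linarith
  have hkq : ∀ v, (1 : ℝ) ≤ (kq H f v : ℝ) := fun v => by exact_mod_cast kq_pos f v
  have h2kq : ∀ v, 2 * (kq H f v : ℝ) ≤ (cs H v : ℝ) + 1 := fun v => by
    exact_mod_cast two_kq hH.vc hH.opt v
  have hmm : ∀ v, (mm H v : ℝ) ≤ (cs H v : ℝ) - 1 := fun v => by
    have h4 : ((mm H v + 1 : ℕ) : ℝ) ≤ (cs H v : ℝ) := by exact_mod_cast mm_le v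
    push_cast at h4
    linarith
  have hcs : ∀ v, cs H v ≠ 1 → (2 : ℝ) ≤ (cs H v : ℝ) := fun v hv => by
    have h4 := cs_pos (H := H) v
    have h5 : 2 ≤ cs H v := by omega
    exact_mod_cast h5
  have hone : ∀ v, ((r : ℝ) + 1) - (kq H f v : ℝ) ≤ (Fintype.card V : ℝ) - (cs H v : ℝ) :=
    fun v => by
      have h4 : (cs H v : ℝ) + ((r : ℝ) + 1) ≤ (Fintype.card V : ℝ) + (kq H f v : ℝ) := by
        exact_mod_cast one_cmp hH.vc.nc hH.opt.1 v
      linarith
  -- the load for a hub `a`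
  have hub : ∀ a b : V, cs H a = 1 → ¬ Hᶜ.Reachable a b →
      xw H f δ a * xw H f δ b +
        (xw H f δ a) ^ 2 * (mm H a : ℝ) / ((Fintype.card V : ℝ) - (cs H a : ℝ)) +
        (xw H f δ b) ^ 2 * (mm H b : ℝ) / ((Fintype.card V : ℝ) - (cs H b : ℝ)) ≤ 1 := by
    intro a b ha _
    have hm : mm H a = 0 := by
      have := mm_le (H := H) a
      omega
    rw [xw_one ha, hm, Nat.cast_zero, mul_zero, zero_div, one_mul, add_zero]
    by_cases hb : cs H b = 1
    · have hm : mm H b = 0 := by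
        have := mm_le (H := H) b
        omega
      rw [xw_one hb, hm, Nat.cast_zero, mul_zero, zero_div, add_zero]
    · rw [xw_big hb]
      exact h1 δ hδ.le hδa _ _ _ _ _ hk1 (hkq b) (h2kq b) (hcs b hb) (hH.big b) (hone b) hH.upp
        (Nat.cast_nonneg _) (hmm b) (hH.deg b)
  -- two large components
  have two : ∀ a b : V, cs H a ≠ 1 → cs H b ≠ 1 → cs H b ≤ cs H a → ¬ Hᶜ.Reachable a b →
      xw H f δ a * xw H f δ b +
        (xw H f δ a) ^ 2 * (mm H a : ℝ) / ((Fintype.card V : ℝ) - (cs H a : ℝ)) +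
        (xw H f δ b) ^ 2 * (mm H b : ℝ) / ((Fintype.card V : ℝ) - (cs H b : ℝ)) ≤ 1 := by
    intro a b ha hb hba hab
    have h4 := two_cmp hH.vc.nc hH.opt.1 hab
    have h5 : (cs H a : ℝ) + (cs H b : ℝ) + ((r : ℝ) + 1) ≤
        (Fintype.card V : ℝ) + (kq H f a : ℝ) + (kq H f b : ℝ) := by exact_mod_cast h4.1
    have h6 : (kq H f a : ℝ) + (kq H f b : ℝ) ≤ (r : ℝ) + 1 := by exact_mod_cast h4.2
    rw [xw_big ha, xw_big hb]
    refine h2 δ hδ.le hδb _ _ _ _ _ _ _ _ hk2 (hkq a) (h2kq a) (hcs a ha) (hH.big a) (hkq b)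
      (h2kq b) (hcs b hb) (by exact_mod_cast hba) h6 (by linarith) hH.upp (Nat.cast_nonneg _)
      (hmm a) (hH.deg a) (Nat.cast_nonneg _) (hmm b)
  set c := cl hC he1 hH hδ.le hδc hV1 with hc
  have hcard : r + 1 ≤ Fintype.card V := by exact_mod_cast hV1
  refine h3 V _ H D hD c (r + 1) (by omega) hcard ?_ ?_
  · have h4 : c.K = ∑ v, xw H f δ v := rfl
    have h5 := sum_xw hH.vc hH.opt hδ.le
    rw [h4]
    push_cast
    have h6 : δ * (((r : ℝ) + 1) / 8) ≤ δ * ((Fintype.card V : ℝ) - ((r : ℝ) + 1)) :=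
      mul_le_mul_of_nonneg_left (by linarith) hδ.le
    linarith
  · intro e' he'
    induction e' using Sym2.ind with
    | _ a b =>
    rw [Cloud.load_mk]
    unfold Cloud.load2
    by_cases hab : Hᶜ.Reachable a b
    · rw [half_zero hC he1 hH hδ.le hδc hV1 hab, half_zero hC he1 hH hδ.le hδc hV1 hab.symm]
      have h4 := c.x_le a
      have h5 := c.x_le b
      have h6 := c.x_nonneg a
      have h7 := c.x_nonneg b
      nlinarith
    · have hba : ¬ Hᶜ.Reachable b a := fun h4 => hab h4.symm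
      rw [half_eq hC he1 hH hδ.le hδc hV1 hab, half_eq hC he1 hH hδ.le hδc hV1 hba]
      change xw H f δ a * xw H f δ b + _ + _ ≤ 1
      by_cases ha : cs H a = 1
      · exact hub a b ha hab
      · by_cases hb : cs H b = 1
        · have := hub b a hb hba
          linarith
        · rcases le_total (cs H b) (cs H a) with h4 | h4
          · exact two a b ha hb h4 hab
          · have := two b a hb ha h4 hba
            linarith

end Pool.Agent.ALD
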