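import Pool.Agent.ALB.ClDefs

/-! # ALD module SQ: the square root cloud on an arbitrary graph

`y v = √((2 d(v) - n)/n)` (`d` the degree, `n` the number of vertices; zero if `2 d(v) < n`).
If `κ n ≤ ∑ y v` then the truncated weights `x v = y v` (if `y v ≥ τ`), `0` otherwise, with
`τ = κ min(ε, 1/2)`, and the common neighbours as middle vertices form a cloud of total weight at
least `(1 - ε) ∑ y v` in which every edge has load at most one. -/

set_option autoImplicit false

namespace Pool.Agent.ALD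

open Finset Pool.Agent.ALB

/-- degree -/
noncomputable def sdeg {V : Type} (G : SimpleGraph V) (v : V) : ℝ :=
  ({x | G.Adj v x}.ncard : ℝ)

/-- square root weight -/
noncomputable def sy {V : Type} [Fintype V] (G : SimpleGraph V) (v : V) : ℝ :=
  Real.sqrt ((2 * ({x | G.Adj v x}.ncard : ℝ) - (Fintype.card V : ℝ)) / (Fintype.card V : ℝ))

open Classical in
/-- truncated weight -/
noncomputable def sx {V : Type} [Fintype V] (G : SimpleGraph V) (τ : ℝ) (v : V) : ℝ :=
  if τ ≤ sy G v then sy G v else 0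

open Classical in
/-- common neighbours -/
noncomputable def sR {V : Type} [Fintype V] (G : SimpleGraph V) (u v : V) : Finset V :=
  univ.filter (fun w => G.Adj u w ∧ G.Adj v w)

variable {V : Type} [Fintype V] {G : SimpleGraph V}

open Classical in
theorem sdeg_eq (v : V) : sdeg G v = ((univ.filter (fun x => G.Adj v x)).card : ℝ) := by
  unfold sdeg
  congr 1
  rw [← Set.ncard_coe_finset]
  congr 1
  ext x
  simp

theorem sR_card (u v : V) :
    sdeg G u + sdeg G v - (Fintype.card V : ℝ) ≤ ((sR G u v).card : ℝ) := by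
  classical
  rw [sdeg_eq, sdeg_eq]
  have h1 : sR G u v = (univ.filter (fun x => G.Adj u x)) ∩ (univ.filter (fun x => G.Adj v x)) := by
    unfold sR
    ext w
    simp
  have h2 := card_union_add_card_inter (univ.filter (fun x => G.Adj u x))
    (univ.filter (fun x => G.Adj v x))
  have h3 : ((univ.filter (fun x => G.Adj u x)) ∪ (univ.filter (fun x => G.Adj v x))).card ≤
      Fintype.card V := card_le_univ _
  rw [h1]
  have h4 : ((((univ.filter (fun x => G.Adj u x)) ∪ (univ.filter (fun x => G.Adj v x))).card : ℕ)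
      : ℝ) + ((((univ.filter (fun x => G.Adj u x)) ∩ (univ.filter (fun x => G.Adj v x))).card : ℕ)
      : ℝ) = ((univ.filter (fun x => G.Adj u x)).card : ℝ) +
        ((univ.filter (fun x => G.Adj v x)).card : ℝ) := by exact_mod_cast h2
  have h5 : ((((univ.filter (fun x => G.Adj u x)) ∪ (univ.filter (fun x => G.Adj v x))).card : ℕ)
      : ℝ) ≤ (Fintype.card V : ℝ) := by exact_mod_cast h3
  linarith

theorem sy_nonneg (v : V) : 0 ≤ sy G v := Real.sqrt_nonneg _

theorem sdeg_le (v : V) : sdeg G v ≤ (Fintype.card V : ℝ) := by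
  classical
  rw [sdeg_eq]
  exact_mod_cast card_le_univ _

omit [Fintype V] in
theorem sdeg_nonneg (v : V) : 0 ≤ sdeg G v := by
  unfold sdeg
  positivity

theorem sy_le (hn : 0 < (Fintype.card V : ℝ)) (v : V) : sy G v ≤ 1 := by
  unfold sy
  refine Real.sqrt_le_iff.2 ⟨zero_le_one, ?_⟩
  rw [div_le_iff₀ hn]
  have := sdeg_le (G := G) v
  unfold sdeg at this
  linarith

theorem sx_nonneg (τ : ℝ) (v : V) : 0 ≤ sx G τ v := by
  unfold sx
  split_ifs
  · exact sy_nonneg v
  · exact le_rfl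

theorem sx_le (hn : 0 < (Fintype.card V : ℝ)) (τ : ℝ) (v : V) : sx G τ v ≤ 1 := by
  unfold sx
  split_ifs
  · exact sy_le hn v
  · exact zero_le_one

theorem sx_ge {τ : ℝ} (v : V) : sy G v - τ ≤ sx G τ v ∨ τ < 0 := by
  by_cases h : τ < 0
  · exact Or.inr h
  left
  unfold sx
  split_ifs with h1
  · push Not at h
    linarith
  · push Not at h1
    linarith

/-- if the truncated weight is not zero -/
theorem sx_ne {τ : ℝ} (hτ : 0 < τ) (hn : 0 < (Fintype.card V : ℝ)) {v : V} (h : sx G τ v ≠ 0) :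
    τ ≤ sx G τ v ∧
      (Fintype.card V : ℝ) * sx G τ v ^ 2 = 2 * sdeg G v - (Fintype.card V : ℝ) := by
  unfold sx at h ⊢
  split_ifs at h ⊢ with h1
  · refine ⟨h1, ?_⟩
    have h3 : 0 < sy G v := lt_of_lt_of_le hτ h1
    have h4 : 0 < (2 * ({x | G.Adj v x}.ncard : ℝ) - (Fintype.card V : ℝ)) /
        (Fintype.card V : ℝ) := by
      unfold sy at h3
      exact Real.sqrt_pos.1 h3
    have h5 : sy G v ^ 2 = (2 * ({x | G.Adj v x}.ncard : ℝ) - (Fintype.card V : ℝ)) /
        (Fintype.card V : ℝ) := by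
      unfold sy
      exact Real.sq_sqrt h4.le
    rw [h5]
    unfold sdeg
    field_simp
  · exact absurd rfl h

/-- number of middle vertices -/
theorem sR_ge {τ : ℝ} (hτ : 0 < τ) (hn : 0 < (Fintype.card V : ℝ)) {u v : V}
    (hu : sx G τ u ≠ 0) (hv : sx G τ v ≠ 0) :
    (Fintype.card V : ℝ) * (sx G τ u * sx G τ v) ≤ ((sR G u v).card : ℝ) ∧
      τ ^ 2 * (Fintype.card V : ℝ) ≤ ((sR G u v).card : ℝ) := by
  obtain ⟨u1, u2⟩ := sx_ne hτ hn hu
  obtain ⟨v1, v2⟩ := sx_ne hτ hn hv
  have h1 := sR_card (G := G) u v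
  constructor
  · have h4 : (Fintype.card V : ℝ) * (sx G τ u * sx G τ v) ≤
        (Fintype.card V : ℝ) * ((sx G τ u ^ 2 + sx G τ v ^ 2) / 2) := by
      apply mul_le_mul_of_nonneg_left _ hn.le
      nlinarith [sq_nonneg (sx G τ u - sx G τ v)]
    linarith
  · have h4 : (Fintype.card V : ℝ) * τ ^ 2 ≤
        (Fintype.card V : ℝ) * ((sx G τ u ^ 2 + sx G τ v ^ 2) / 2) := by
      apply mul_le_mul_of_nonneg_left _ hn.le
      nlinarith
    linarith

/-- the half load -/
noncomputable def shalf {V : Type} [Fintype V] (G : SimpleGraph V) (τ : ℝ) (a b : V) : ℝ :=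
  open Classical in
  ∑ v ∈ univ.filter (fun v => v ≠ a ∧ ¬ G.Adj a v ∧ b ∈ sR G a v),
    sx G τ a * sx G τ v / ((sR G a v).card : ℝ)

theorem shalf_le {τ : ℝ} (hτ : 0 < τ) (hn : 0 < (Fintype.card V : ℝ)) (a b : V) :
    shalf G τ a b ≤ 1 - sdeg G a / (Fintype.card V : ℝ) ∧ (sx G τ a = 0 → shalf G τ a b = 0) := by
  classical
  constructor
  · set T := univ.filter (fun v => v ≠ a ∧ ¬ G.Adj a v ∧ b ∈ sR G a v) with hT
    have h1 : shalf G τ a b ≤ (T.card : ℝ) * (1 / (Fintype.card V : ℝ)) := by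
      have : shalf G τ a b ≤ ∑ _v ∈ T, 1 / (Fintype.card V : ℝ) := by
        unfold shalf
        rw [hT]
        refine le_trans (le_of_eq ?_) (sum_le_sum (f := fun v =>
          sx G τ a * sx G τ v / ((sR G a v).card : ℝ)) fun v hv => ?_)
        · congr!
        · rw [mem_filter] at hv
          by_cases h0 : sx G τ a = 0
          · rw [h0, zero_mul, zero_div]
            positivity
          by_cases h0' : sx G τ v = 0
          · rw [h0', mul_zero, zero_div]
            positivity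
          obtain ⟨k1, k2⟩ := sR_ge hτ hn h0 h0'
          have k3 : 0 < ((sR G a v).card : ℝ) := lt_of_lt_of_le (by positivity) k2
          rw [div_le_div_iff₀ k3 hn]
          linarith
      rwa [sum_const, nsmul_eq_mul] at this
    have h2 : T.card + (univ.filter (fun x => G.Adj a x)).card ≤ Fintype.card V := by
      rw [← card_union_of_disjoint]
      · exact card_le_univ _
      · rw [disjoint_left]
        intro v hv hv'
        rw [hT, mem_filter] at hv
        rw [mem_filter] at hv'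
        exact hv.2.2.1 hv'.2
    have h3 : (T.card : ℝ) + sdeg G a ≤ (Fintype.card V : ℝ) := by
      rw [sdeg_eq]
      exact_mod_cast h2
    calc shalf G τ a b ≤ (T.card : ℝ) * (1 / (Fintype.card V : ℝ)) := h1
      _ ≤ ((Fintype.card V : ℝ) - sdeg G a) * (1 / (Fintype.card V : ℝ)) :=
          mul_le_mul_of_nonneg_right (by linarith) (by positivity)
      _ = _ := by field_simp
  · intro h
    unfold shalf
    refine sum_eq_zero fun v _ => ?_
    rw [h, zero_mul, zero_div]

theorem sload_le {τ : ℝ} (hτ : 0 < τ) (hn : 0 < (Fintype.card V : ℝ)) (a b : V) :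
    sx G τ a * sx G τ b + shalf G τ a b + shalf G τ b a ≤ 1 := by
  obtain ⟨u1, u2⟩ := shalf_le (G := G) hτ hn a b
  obtain ⟨v1, v2⟩ := shalf_le (G := G) hτ hn b a
  have da : 0 ≤ sdeg G a / (Fintype.card V : ℝ) := div_nonneg (sdeg_nonneg a) hn.le
  have db : 0 ≤ sdeg G b / (Fintype.card V : ℝ) := div_nonneg (sdeg_nonneg b) hn.le
  by_cases h0 : sx G τ a = 0
  · rw [u2 h0, h0]
    linarith
  by_cases h1 : sx G τ b = 0
  · rw [v2 h1, h1]
    linarith
  obtain ⟨-, a2⟩ := sx_ne hτ hn h0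
  obtain ⟨-, b2⟩ := sx_ne hτ hn h1
  have a3 : sx G τ a ^ 2 = 2 * (sdeg G a / (Fintype.card V : ℝ)) - 1 := by
    have : sx G τ a ^ 2 = (2 * sdeg G a - (Fintype.card V : ℝ)) / (Fintype.card V : ℝ) := by
      rw [← a2]
      field_simp
    rw [this]
    field_simp
  have b3 : sx G τ b ^ 2 = 2 * (sdeg G b / (Fintype.card V : ℝ)) - 1 := by
    have : sx G τ b ^ 2 = (2 * sdeg G b - (Fintype.card V : ℝ)) / (Fintype.card V : ℝ) := by
      rw [← b2]
      field_simp
    rw [this]
    field_simp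
  nlinarith [sq_nonneg (sx G τ a - sx G τ b)]

/-- **The square root cloud.** -/
theorem sq_cloud {κ ε : ℝ} (hκ : 0 < κ) (hε : 0 < ε) : ∃ η : ℝ, 0 < η ∧
    ∀ (V : Type) (_ : Fintype V) (G : SimpleGraph V), Nonempty V →
      κ * (Fintype.card V : ℝ) ≤ ∑ v : V, Real.sqrt ((2 * ({x | G.Adj v x}.ncard : ℝ) -
        (Fintype.card V : ℝ)) / (Fintype.card V : ℝ)) →
      ∃ c : Pool.Agent.ALB.Cloud G 1 (κ / 2) η,
        (1 - ε) * (∑ v : V, Real.sqrt ((2 * ({x | G.Adj v x}.ncard : ℝ) -
          (Fintype.card V : ℝ)) / (Fintype.card V : ℝ))) ≤ c.K ∧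
        ∀ f ∈ Pool.Agent.ALB.ed G, c.load f ≤ 1 := by
  have hm : 0 < min ε (1 / 2) := lt_min hε (by norm_num)
  have hτ : 0 < κ * min ε (1 / 2) := mul_pos hκ hm
  refine ⟨(κ * min ε (1 / 2)) ^ 2, by positivity, ?_⟩
  intro V _ G hV hK
  have hn : 0 < (Fintype.card V : ℝ) := by
    exact_mod_cast Fintype.card_pos_iff.2 hV
  set τ := κ * min ε (1 / 2) with hτd
  have hS : ∑ v : V, Real.sqrt ((2 * ({x | G.Adj v x}.ncard : ℝ) -
        (Fintype.card V : ℝ)) / (Fintype.card V : ℝ)) = ∑ v : V, sy G v := rfl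
  rw [hS] at hK ⊢
  have hS0 : 0 ≤ ∑ v : V, sy G v := sum_nonneg fun v _ => sy_nonneg v
  have h1 : (1 - min ε (1 / 2)) * ∑ v : V, sy G v ≤ ∑ v : V, sx G τ v := by
    have e1 : ∑ v : V, (sy G v - τ) ≤ ∑ v : V, sx G τ v := by
      refine sum_le_sum fun v _ => ?_
      rcases sx_ge (G := G) (τ := τ) v with h | h
      · exact h
      · exact absurd hτ (not_lt.2 h.le)
    rw [sum_sub_distrib, sum_const, nsmul_eq_mul, card_univ] at e1
    have e2 : (Fintype.card V : ℝ) * τ ≤ min ε (1 / 2) * ∑ v : V, sy G v := by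
      rw [hτd]
      calc (Fintype.card V : ℝ) * (κ * min ε (1 / 2)) =
          min ε (1 / 2) * (κ * (Fintype.card V : ℝ)) := by ring
        _ ≤ _ := mul_le_mul_of_nonneg_left hK hm.le
    linarith
  have h2 : (1 - ε) * ∑ v : V, sy G v ≤ ∑ v : V, sx G τ v := by
    refine le_trans (mul_le_mul_of_nonneg_right ?_ hS0) h1
    have := min_le_left ε (1 / 2)
    linarith
  have h3 : κ / 2 * (Fintype.card V : ℝ) ≤ ∑ v : V, sx G τ v := by
    have e1 : (1 / 2 : ℝ) * ∑ v : V, sy G v ≤ (1 - min ε (1 / 2)) * ∑ v : V, sy G v := by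
      refine mul_le_mul_of_nonneg_right ?_ hS0
      have := min_le_right ε (1 / 2)
      linarith
    linarith
  refine ⟨{
    x := sx G τ
    R := sR G
    x_nonneg := sx_nonneg τ
    x_le := sx_le hn τ
    K_ge := h3
    R_symm := ?_
    R_adj := ?_
    R_card := ?_ }, h2, ?_⟩
  · intro u v
    unfold sR
    ext w
    simp only [mem_filter, mem_univ, true_and]
    tauto
  · intro u v w hw
    unfold sR at hw
    simpa using hw
  · intro u v _ _ hu hv
    exact (sR_ge hτ hn hu hv).2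
  · intro f
    refine Sym2.ind (fun a b _ => ?_) f
    exact sload_le (G := G) hτ hn a b

end Pool.Agent.ALD
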