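import Pool.Agent.ALD.Cl
import Pool.Agent.ALD.Sq
import Pool.Agent.ALC.Core
import Pool.Agent.ALB.Str
import Pool.Agent.ALB.FrzIn
import Pool.Agent.ALB.FrzOut

/-!
# ALD CO: few vertices, joins, large degrees

PROOF of `core`.  `rC` if the number of vertices of the critical graph is at least `C r`, `rB` if
it is at most `7 r / 6`, `rA` if there is a vertex of degree at most `(1 + ε) r`; otherwise the
cloud of `cl_main`.
-/

set_option autoImplicit false

namespace Pool.Agent.ALD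

open Finset Pool.Agent.ALB Pool.Agent.ALC

theorem mm_deg {V : Type} [Fintype V] (H : SimpleGraph V) (v : V) :
    mm H v + {x | H.Adj v x}.ncard + 1 = Fintype.card V := by
  classical
  have h1 : {x | H.Adj v x}.ncard = (univ.filter (fun x => H.Adj v x)).card := by
    rw [← Set.ncard_coe_finset]
    congr 1
    ext x
    simp
  have h2 : mm H v = (univ.filter (fun x => x ≠ v ∧ ¬ H.Adj v x)).card := by
    unfold mm
    congr
  have h3 : (univ : Finset V) = insert v ((univ.filter (fun x => x ≠ v ∧ ¬ H.Adj v x)) ∪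
      (univ.filter (fun x => H.Adj v x))) := by
    ext x
    simp only [mem_univ, mem_insert, mem_union, mem_filter, true_and, true_iff]
    by_cases hx : x = v
    · exact Or.inl hx
    · by_cases hx2 : H.Adj v x
      · exact Or.inr (Or.inr hx2)
      · exact Or.inr (Or.inl ⟨hx, hx2⟩)
  have h4 : (univ : Finset V).card = (insert v ((univ.filter (fun x => x ≠ v ∧ ¬ H.Adj v x)) ∪
      (univ.filter (fun x => H.Adj v x)))).card := congrArg Finset.card h3
  have h5 : Disjoint (univ.filter (fun x => x ≠ v ∧ ¬ H.Adj v x))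
      (univ.filter (fun x => H.Adj v x)) := by
    rw [disjoint_left]
    intro x hx hx'
    rw [mem_filter] at hx hx'
    exact hx.2.2 hx'.2
  rw [card_insert_of_notMem (by simp), card_union_of_disjoint h5, card_univ] at h4
  omega

/-- critical graphs -/
theorem core {c : ℝ} (hc : Lim c) : ∃ e : ℝ, 0 < e ∧ e ≤ 1 / 10 ∧ ∃ r₀ : ℕ, ∀ (V : Type)
    (_ : Fintype V) (H : SimpleGraph V) (D : Drw H) (r : ℕ), r₀ ≤ r → VC H r →
    (∀ f : V → Fin (r + 1), Opt H f → ∀ v, (kq H f v : ℝ) ≤ (2 / 3 + e / 100) * ((r : ℝ) + 1)) →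
    crK (r + 1) ≤ D.cr := by
  classical
  obtain ⟨C, hC, r3, h3⟩ := rC hc
  obtain ⟨ε', hε', r1, h1⟩ := rA hc hC (show (0:ℝ) < 1/6 by norm_num)
  obtain ⟨r2, h2⟩ := rB hc
  set e : ℝ := min (ε' / 2) (1 / 10) with hed
  have he : 0 < e := lt_min (by positivity) (by norm_num)
  have he1 : e ≤ 1 / 10 := min_le_right _ _
  have he2 : e ≤ ε' / 2 := min_le_left _ _
  obtain ⟨r4, h4⟩ := cl_main (C := max C 1) (le_max_right _ _) he he1
  refine ⟨e, he, he1, max (max r1 r2) (max r3 (max r4 1)), ?_⟩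
  intro V _ H D r hr hH hbig
  simp only [max_le_iff] at hr
  obtain ⟨⟨hr1, hr2⟩, hr3, hr4, hr5⟩ := hr
  obtain ⟨D', hD', hNA⟩ := exists_noAdj D
  refine le_trans ?_ hD'
  by_cases hcb : C * (r:ℝ) ≤ (Fintype.card V : ℝ)
  · exact h3 V _ H D' hNA r hr3 (fun x => vc_deg hH x) hcb
  by_cases hsm : 6 * Fintype.card V ≤ 7 * r
  · exact h2 V _ H D' r hr2 hH hsm
  by_cases hv : ∃ v : V, ({x | H.Adj v x}.ncard : ℝ) ≤ (1 + ε') * (r : ℝ)
  · refine h1 V _ H D' hNA r hr1 hH ?_ (not_le.1 hcb).le hv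
    have h6 : 7 * r < 6 * Fintype.card V := not_le.1 hsm
    have h7 : (7:ℝ) * (r:ℝ) < 6 * (Fintype.card V : ℝ) := by exact_mod_cast h6
    linarith
  · have hVp : 0 < Fintype.card V := by
      have : ¬ 6 * Fintype.card V ≤ 7 * r := hsm
      omega
    obtain ⟨a⟩ : Nonempty V := Fintype.card_pos_iff.1 hVp
    obtain ⟨f, hf⟩ := exists_opt hH a
    refine h4 V _ H D' hNA r f hr4 ⟨hH, hf, hbig f hf, ?_, ?_⟩ (not_le.1 hsm)
    · have h6 := (not_le.1 hcb).le
      have h7 : C * (r : ℝ) ≤ max C 1 * ((r : ℝ) + 1) := by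
        have h8 : C ≤ max C 1 := le_max_left _ _
        have h9 : (0 : ℝ) ≤ r := Nat.cast_nonneg r
        nlinarith
      linarith
    · intro v
      have h6 : (mm H v : ℝ) + ({x | H.Adj v x}.ncard : ℝ) + 1 = (Fintype.card V : ℝ) := by
        exact_mod_cast mm_deg H v
      have h7 : (1 + ε') * (r : ℝ) < ({x | H.Adj v x}.ncard : ℝ) := by
        by_contra h8
        exact hv ⟨v, not_lt.1 h8⟩
      have h8 : (1 : ℝ) ≤ r := by exact_mod_cast hr5
      nlinarith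

/-- the critical subgraph of a graph in which the parts have few colours -/
theorem kq_part {W V : Type} [Fintype V] {G : SimpleGraph W} (ψ : V → W) {r : ℕ}
    (hH : VC (G.comap ψ) r) {f : V → Fin (r + 1)} (hf : Opt (G.comap ψ) f)
    (p : W → ℕ) (S : Set W) (hS : ∀ v, ψ v ∈ S)
    (hp : ∀ u ∈ S, ∀ v ∈ S, p u ≠ p v → G.Adj u v) (v : V) {q : ℕ} (g : W → Fin q)
    (hg : ∀ x ∈ S, ∀ y ∈ S, p x = p (ψ v) → p y = p (ψ v) → G.Adj x y → g x ≠ g y) :
    kq (G.comap ψ) f v ≤ q := by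
  have key : ∀ x : V, (G.comap ψ)ᶜ.Reachable v x → p (ψ x) = p (ψ v) := by
    intro x hx
    obtain ⟨w⟩ := hx
    clear hg
    induction w with
    | nil => rfl
    | @cons a b c hab _ ih =>
      rw [ih]
      by_contra hne
      rw [SimpleGraph.compl_adj] at hab
      exact hab.2 (hp (ψ a) (hS a) (ψ b) (hS b) (fun h => hne h.symm))
  refine kq_le hH.nc hf.1 v (fun x => g (ψ x)) ?_
  intro x y hx hy hxy
  exact hg (ψ x) (hS x) (ψ y) (hS y) (key x hx) (key y hy) hxy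

/-- joins, and few vertices -/
theorem core_two : ∃ ε : ℝ, 0 < ε ∧ ε ≤ 1 ∧ ∃ k₀ : ℕ, ∀ (n : ℕ) (G : SimpleGraph (Fin n)) (k : ℕ),
    k₀ ≤ k →
    ((∃ (A : Finset (Fin n)) (p : Fin n → ℕ),
      ¬ (G.comap (Subtype.val : {x // x ∈ A} → Fin n)).Colorable (k - 1) ∧
      (∀ u ∈ A, ∀ v ∈ A, p u ≠ p v → G.Adj u v) ∧
      ∀ i : ℕ, ∃ q : ℕ, (q : ℝ) ≤ (2 / 3 + ε) * (k : ℝ) ∧ ∃ g : Fin n → Fin q,
        ∀ u ∈ A, ∀ v ∈ A, p u = i → p v = i → G.Adj u v → g u ≠ g v) ∨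
      (¬ G.Colorable (k - 1) ∧ (n : ℝ) ≤ (5 / 3 + ε) * (k : ℝ))) →
    ∀ D : Drw G, crK k ≤ D.cr := by
  classical
  obtain ⟨c, hc0, hc1, hc2⟩ := exists_limit
  rcases hc0.eq_or_lt with h0 | hpos
  · refine ⟨1, one_pos, le_refl _, 0, ?_⟩
    intro n G k _ _ D
    have h1 := hc1 k
    rw [← h0, zero_mul] at h1
    have h2 : crK k = 0 := by exact_mod_cast le_antisymm h1 (Nat.cast_nonneg _)
    rw [h2]
    exact Nat.zero_le _
  have hc : Lim c := ⟨hpos, hc1, hc2⟩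
  obtain ⟨e, he, he1, r0, h0⟩ := core hc
  obtain ⟨N, hN⟩ := exists_nat_ge (200 / e)
  refine ⟨e / 200, by positivity, by linarith, max (r0 + 1) (max 2 (N + 1)), ?_⟩
  intro n G k hk hG D
  simp only [max_le_iff] at hk
  obtain ⟨hk1, hk2, hk3⟩ := hk
  obtain ⟨r, rfl⟩ : ∃ r, k = r + 1 := ⟨k - 1, by omega⟩
  have hr0 : 0 < r := by omega
  rw [Nat.add_sub_cancel] at hG
  have hrN : 200 / e ≤ (r : ℝ) + 1 := by
    have h4 : (N:ℝ) ≤ (r:ℝ) := by exact_mod_cast (by omega : N ≤ r)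
    linarith
  rw [div_le_iff₀ he] at hrN
  rcases hG with ⟨A, p, hA, hp, hq⟩ | ⟨hcol, hn⟩
  · obtain ⟨B, hB⟩ := exists_vc hr0 hA
    obtain ⟨D1, hD1⟩ := exists_comap D (Subtype.val : {x // x ∈ A} → Fin n)
      Subtype.val_injective
    obtain ⟨D2, hD2⟩ := exists_comap D1 (Subtype.val : {x // x ∈ B} → {x // x ∈ A})
      Subtype.val_injective
    refine le_trans ?_ (hD2.trans hD1)
    refine h0 _ _ _ D2 r (by omega) hB ?_
    intro f hf v
    obtain ⟨q, hq1, g, hg⟩ := hq (p v.1.1)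
    have h5 : kq ((G.comap (Subtype.val : {x // x ∈ A} → Fin n)).comap
        (Subtype.val : {x // x ∈ B} → {x // x ∈ A})) f v ≤ q := by
      exact kq_part (G := G) (fun x : {x // x ∈ B} => x.1.1) (r := r) hB hf p
        {x | x ∈ A} (fun v => v.1.2) hp v g hg
    have h6 : (kq ((G.comap (Subtype.val : {x // x ∈ A} → Fin n)).comap
        (Subtype.val : {x // x ∈ B} → {x // x ∈ A})) f v : ℝ) ≤ (q : ℝ) := by exact_mod_cast h5
    push_cast at hq1
    have h7 : (0 : ℝ) ≤ (r : ℝ) := Nat.cast_nonneg r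
    nlinarith
  · obtain ⟨B, hB⟩ := exists_vc hr0 hcol
    obtain ⟨D1, hD1⟩ := exists_comap D (Subtype.val : {x // x ∈ B} → Fin n)
      Subtype.val_injective
    refine le_trans ?_ hD1
    refine h0 _ _ _ D1 r (by omega) hB ?_
    intro f hf v
    have h5 := one_cmp hB.nc hf.1 v
    have h6 := two_kq hB hf v
    have h7 : Fintype.card {x // x ∈ B} ≤ n := by
      have := Fintype.card_le_of_injective (Subtype.val : {x // x ∈ B} → Fin n)
        Subtype.val_injective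
      rwa [Fintype.card_fin] at this
    have h8 : kq (G.comap (Subtype.val : {x // x ∈ B} → Fin n)) f v + r ≤ n := by omega
    have h9 : (kq (G.comap (Subtype.val : {x // x ∈ B} → Fin n)) f v : ℝ) + r ≤ n := by
      exact_mod_cast h8
    push_cast at hn
    nlinarith

/-- large degrees -/
theorem core_sq {ε : ℝ} (hε : 0 < ε) (hε1 : ε ≤ 1) {κ : ℝ} (hκ : 0 < κ) :
    ∃ k₀ : ℕ, ∀ (V : Type) (_ : Fintype V) (G : SimpleGraph V) (k : ℕ),
    k₀ ≤ k → k ≤ Fintype.card V → κ * (Fintype.card V : ℝ) ≤ ∑ v : V, Real.sqrt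
      ((2 * ({x | G.Adj v x}.ncard : ℝ) - (Fintype.card V : ℝ)) / (Fintype.card V : ℝ)) →
    (1 + ε) * (k : ℝ) ≤ ∑ v : V, Real.sqrt
      ((2 * ({x | G.Adj v x}.ncard : ℝ) - (Fintype.card V : ℝ)) / (Fintype.card V : ℝ)) →
    ∀ D : Drw G, crK k ≤ D.cr := by
  obtain ⟨η, hη, h1⟩ := sq_cloud (κ := κ) (ε := ε / 4) hκ (by positivity)
  obtain ⟨k1, h2⟩ := cloud_asym (κ := κ / 2) (η := η) (ε := ε / 4) (by positivity) hη
    (by positivity)
  refine ⟨max k1 1, ?_⟩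
  intro V _ G k hk hkV hκV hK D
  obtain ⟨D', hD', hNA⟩ := exists_noAdj D
  refine le_trans ?_ hD'
  have hne : Nonempty V := Fintype.card_pos_iff.1 (by
    have := (le_max_right _ _).trans hk
    omega)
  obtain ⟨c, hc1, hc2⟩ := h1 V _ G hne hκV
  refine h2 V _ G D' hNA c k ((le_max_left _ _).trans hk) hkV ?_ hc2
  have hk0 : (0 : ℝ) ≤ k := Nat.cast_nonneg k
  set S : ℝ := ∑ v : V, Real.sqrt
      ((2 * ({x | G.Adj v x}.ncard : ℝ) - (Fintype.card V : ℝ)) / (Fintype.card V : ℝ)) with hS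
  have h3 : (1 - ε / 4) * ((1 + ε) * (k : ℝ)) ≤ (1 - ε / 4) * S :=
    mul_le_mul_of_nonneg_left hK (by linarith)
  have h4 : (1 + ε / 4) * (k : ℝ) ≤ (1 - ε / 4) * ((1 + ε) * (k : ℝ)) := by
    have h5 : 0 ≤ (ε / 2 - ε ^ 2 / 4) * (k : ℝ) := by
      refine mul_nonneg ?_ hk0
      nlinarith
    nlinarith
  linarith

end Pool.Agent.ALD
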