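import Pool.Agent.ALC.Defs

/-!
# ALD GA: the components of the complement of a critical graph

`H` is vertex-critical with chromatic number `r + 1` (`VC H r`), `T = Hᶜ`.  Main result
(Gallai): the number of components of `T` is at least `2 (r + 1) - card V`.  It is used in the
form `ga_sum`, `ga_card` (`cs H v` is the number of vertices of the component of `v`).

PROOF.  `Sg c` is the set of the one-point classes of the colouring `c`.  EXCHANGE (`exch`): let
`x` be a one-point class of `g`, `y ≠ x`, `f y = f x`; recolour the points of the `g`-class of `y`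
that are in the `f`-class of `x` with the colour of `x`.  The number of pairs in a common class of
both colourings grows, the other one-point classes stay, and their number does not grow.
`Opt` : the smallest number of one-point classes; `D` = points that are a one-point class of some
optimal colouring.  `D` is closed under adjacency in `T` (`ga_closed`), and two one-point classes of
an optimal colouring are in different components of `T` (`ga_sep`, as in Gallai's lemma).
-/

set_option autoImplicit false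

namespace Pool.Agent.ALD

open Finset Pool.Agent.ALB Pool.Agent.ALC

variable {V : Type} [Fintype V] {H : SimpleGraph V} {r : ℕ}

/-- proper colouring -/
def Pc (H : SimpleGraph V) (c : V → Fin (r + 1)) : Prop := ∀ x y, H.Adj x y → c x ≠ c y

open Classical in
/-- the one-point classes -/
noncomputable def Sg (c : V → Fin (r + 1)) : Finset V :=
  univ.filter (fun v => ∀ w, c w = c v → w = v)

open Classical in
/-- agreement -/
noncomputable def ag (f g : V → Fin (r + 1)) : ℕ :=
  (univ.filter (fun p : V × V => f p.1 = f p.2 ∧ g p.1 = g p.2)).card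

theorem mem_Sg {c : V → Fin (r + 1)} {v : V} : v ∈ Sg c ↔ ∀ w, c w = c v → w = v := by
  unfold Sg
  simp

theorem surj (hnc : ¬ H.Colorable r) {c : V → Fin (r + 1)} (hc : Pc H c) (j : Fin (r + 1)) :
    ∃ v, c v = j := by
  by_contra hno
  push Not at hno
  have h1 : ∀ v, ∃ z : Fin r, j.succAbove z = c v := fun v => Fin.exists_succAbove_eq (hno v)
  choose d hd using h1
  refine hnc ⟨SimpleGraph.Coloring.mk d ?_⟩
  intro x y hxy heq
  apply hc x y hxy
  rw [← hd x, ← hd y, heq]

theorem exch (hnc : ¬ H.Colorable r) {f g : V → Fin (r + 1)} (hf : Pc H f) (hg : Pc H g)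
    {x y : V} (hx : x ∈ Sg g) (hyx : y ≠ x) (hfy : f y = f x) :
    ∃ g' : V → Fin (r + 1), Pc H g' ∧ ag f g < ag f g' ∧ (∀ v ∈ Sg g, v ≠ x → v ∈ Sg g') ∧
      (Sg g').card ≤ (Sg g).card := by
  classical
  rw [mem_Sg] at hx
  have hgyx : g y ≠ g x := fun h => hyx (hx y h)
  set g' : V → Fin (r + 1) := fun w => if f w = f x ∧ g w = g y then g x else g w with hg'
  have e1 : ∀ w, f w = f x ∧ g w = g y → g' w = g x := fun w h => by simp only [hg']; rw [if_pos h]
  have e2 : ∀ w, ¬ (f w = f x ∧ g w = g y) → g' w = g w := fun w h => by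
    simp only [hg']; rw [if_neg h]
  have hPc : Pc H g' := by
    intro a b hab
    by_cases ha : f a = f x ∧ g a = g y
    · by_cases hb : f b = f x ∧ g b = g y
      · exact absurd (ha.1.trans hb.1.symm) (hf a b hab)
      · rw [e1 a ha, e2 b hb]
        intro h
        have h1 : b = x := hx b h.symm
        subst h1
        exact hf a b hab ha.1
    · by_cases hb : f b = f x ∧ g b = g y
      · rw [e2 a ha, e1 b hb]
        intro h
        have h1 : a = x := hx a h
        subst h1
        exact hf a b hab hb.1.symm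
      · rw [e2 a ha, e2 b hb]
        exact hg a b hab
  obtain ⟨z, hz⟩ := surj hnc hPc (g y)
  have hzP : ¬ (f z = f x ∧ g z = g y) := by
    intro h
    rw [e1 z h] at hz
    exact hgyx hz.symm
  have hgz : g z = g y := by rw [← hz, e2 z hzP]
  have hfz : f z ≠ f x := fun h => hzP ⟨h, hgz⟩
  have hxP : ¬ (f x = f x ∧ g x = g y) := fun h => hgyx h.2.symm
  refine ⟨g', hPc, ?_, ?_, ?_⟩
  · unfold ag
    refine card_lt_card ?_
    rw [ssubset_iff_of_subset]
    · refine ⟨(x, y), ?_, ?_⟩
      · rw [mem_filter]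
        refine ⟨mem_univ _, hfy.symm, ?_⟩
        change g' x = g' y
        rw [e2 x hxP, e1 y ⟨hfy, rfl⟩]
      · rw [mem_filter]
        rintro ⟨-, -, h⟩
        exact hgyx h.symm
    · intro p hp
      rw [mem_filter] at hp ⊢
      obtain ⟨-, h1, h2⟩ := hp
      refine ⟨mem_univ _, h1, ?_⟩
      by_cases hP : f p.1 = f x ∧ g p.1 = g y
      · rw [e1 _ hP, e1 _ ⟨h1 ▸ hP.1, h2 ▸ hP.2⟩]
      · rw [e2 _ hP, e2 _ (fun h => hP ⟨h1.trans h.1, h2.trans h.2⟩), h2]
  · intro v hv hvx
    rw [mem_Sg] at hv ⊢
    have hvP : ¬ (f v = f x ∧ g v = g y) := by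
      intro h
      have h1 : z = v := hv z (hgz.trans h.2.symm)
      exact hfz (h1 ▸ h.1)
    intro w hw
    rw [e2 v hvP] at hw
    by_cases hwP : f w = f x ∧ g w = g y
    · rw [e1 w hwP] at hw
      exact absurd (hv x hw).symm hvx
    · rw [e2 w hwP] at hw
      exact hv w hw
  · have hsub : Sg g' ⊆ insert z ((Sg g).erase x) := by
      intro w hw
      rw [mem_Sg] at hw
      have hwP : ¬ (f w = f x ∧ g w = g y) := by
        intro h
        have h1 : x = w := hw x (by rw [e1 w h, e2 x hxP])
        exact hxP (h1 ▸ h)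
      have hwx : w ≠ x := by
        rintro rfl
        exact hyx (hw y (by rw [e1 y ⟨hfy, rfl⟩, e2 w hwP]))
      rw [mem_insert, mem_erase]
      by_cases hwz : w = z
      · exact Or.inl hwz
      · refine Or.inr ⟨hwx, ?_⟩
        rw [mem_Sg]
        intro u hu
        by_contra hne
        have h1 : f u = f x ∧ g u = g y := by
          by_contra h2
          exact hne (hw u (by rw [e2 u h2, e2 w hwP, hu]))
        have h3 : z = w := hw z (by rw [e2 z hzP, e2 w hwP, hgz, ← hu, h1.2])
        exact hwz h3.symm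
    have hxm : x ∈ Sg g := by
      rw [mem_Sg]
      exact hx
    have h1 := (card_le_card hsub).trans (card_insert_le _ _)
    rw [card_erase_add_one hxm] at h1
    exact h1

/-- two one-point classes are adjacent -/
theorem merge (hnc : ¬ H.Colorable r) {g : V → Fin (r + 1)} (hg : Pc H g) {a d : V}
    (ha : a ∈ Sg g) (hd : d ∈ Sg g) (hne : a ≠ d) : H.Adj a d := by
  classical
  by_contra hna
  rw [mem_Sg] at ha hd
  set g' : V → Fin (r + 1) := fun w => if w = a then g d else g w with hg'
  have e1 : g' a = g d := by simp [hg']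
  have e2 : ∀ w, w ≠ a → g' w = g w := fun w h => by simp [hg', h]
  have hPc : Pc H g' := by
    intro u w huw
    by_cases hu : u = a
    · subst hu
      rw [e1, e2 w huw.ne']
      intro h
      have h1 : w = d := hd w h.symm
      exact hna (h1 ▸ huw)
    · by_cases hw : w = a
      · subst hw
        rw [e1, e2 u hu]
        intro h
        have h1 : u = d := hd u h
        exact hna (h1 ▸ huw.symm)
      · rw [e2 u hu, e2 w hw]
        exact hg u w huw
  obtain ⟨z, hz⟩ := surj hnc hPc (g a)
  by_cases hza : z = a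
  · rw [hza, e1] at hz
    exact hne (ha d hz).symm
  · rw [e2 z hza] at hz
    exact hza (ha z hz)

/-- fewest one-point classes -/
def Opt (H : SimpleGraph V) (c : V → Fin (r + 1)) : Prop :=
  Pc H c ∧ ∀ c' : V → Fin (r + 1), Pc H c' → (Sg c).card ≤ (Sg c').card

theorem exists_single (h : VC H r) (a : V) : ∃ g : V → Fin (r + 1), Pc H g ∧ a ∈ Sg g := by
  classical
  obtain ⟨f, hf⟩ := h.del a
  set g : V → Fin (r + 1) := fun w => if w = a then Fin.last r else (f w).castSucc with hg
  have e1 : g a = Fin.last r := by simp [hg]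
  have e2 : ∀ w, w ≠ a → g w = (f w).castSucc := fun w h => by simp [hg, h]
  refine ⟨g, ?_, ?_⟩
  · intro x y hxy
    by_cases hx : x = a
    · subst hx
      rw [e1, e2 y hxy.ne']
      exact (Fin.castSucc_lt_last _).ne'
    · by_cases hy : y = a
      · subst hy
        rw [e1, e2 x hx]
        exact (Fin.castSucc_lt_last _).ne
      · rw [e2 x hx, e2 y hy]
        intro heq
        exact hf x y hx hy hxy (Fin.castSucc_injective _ heq)
  · rw [mem_Sg]
    intro w hw
    by_contra hne
    rw [e1, e2 w hne] at hw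
    exact (Fin.castSucc_lt_last _).ne hw

theorem exists_opt (h : VC H r) (a : V) : ∃ g : V → Fin (r + 1), Opt H g := by
  classical
  obtain ⟨g0, hg0, -⟩ := exists_single h a
  obtain ⟨g, hg, hmin⟩ := (univ.filter (fun g : V → Fin (r + 1) => Pc H g)).exists_min_image
    (fun g => (Sg g).card) ⟨g0, by rw [mem_filter]; exact ⟨mem_univ _, hg0⟩⟩
  rw [mem_filter] at hg
  exact ⟨g, hg.2, fun c' hc' => hmin c' (by rw [mem_filter]; exact ⟨mem_univ _, hc'⟩)⟩

/-- `D` is closed under non-adjacency -/
theorem ga_closed (h : VC H r) {f : V → Fin (r + 1)} (hf : Opt H f) {d a : V} (hd : d ∈ Sg f)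
    (hne : a ≠ d) (hna : ¬ H.Adj a d) : ∃ g : V → Fin (r + 1), Opt H g ∧ a ∈ Sg g := by
  classical
  by_contra hno
  push Not at hno
  obtain ⟨g0, hg0, ha0⟩ := exists_single h a
  obtain ⟨g, hg, hmax⟩ := (univ.filter (fun g : V → Fin (r + 1) =>
    Pc H g ∧ a ∈ Sg g)).exists_max_image (fun g => ag f g)
    ⟨g0, by rw [mem_filter]; exact ⟨mem_univ _, hg0, ha0⟩⟩
  rw [mem_filter] at hg
  obtain ⟨-, hgP, hga⟩ := hg
  have hsub : Sg g ⊆ insert a (Sg f) := by
    intro x hx
    rw [mem_insert]
    by_cases hxa : x = a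
    · exact Or.inl hxa
    · refine Or.inr ?_
      by_contra hxf
      rw [mem_Sg] at hxf
      push Not at hxf
      obtain ⟨y, hy1, hy2⟩ := hxf
      obtain ⟨g', hg', hag, hk, -⟩ := exch h.nc hf.1 hgP hx hy2 hy1
      have := hmax g' (by
        rw [mem_filter]
        exact ⟨mem_univ _, hg', hk a hga (Ne.symm hxa)⟩)
      omega
  have hlt : (Sg f).card < (Sg g).card := by
    refine lt_of_le_of_ne (hf.2 g hgP) ?_
    intro heq
    refine hno g ⟨hgP, fun c' hc' => ?_⟩ hga
    rw [← heq]
    exact hf.2 c' hc'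
  have heq : Sg g = insert a (Sg f) :=
    eq_of_subset_of_card_le hsub ((card_insert_le _ _).trans hlt)
  have hdg : d ∈ Sg g := by
    rw [heq, mem_insert]
    exact Or.inr hd
  exact hna (merge h.nc hgP hga hdg hne)

/-- two one-point classes of an optimal colouring are in different components of the complement -/
theorem ga_sep (h : VC H r) {f : V → Fin (r + 1)} (hf : Opt H f) {u v : V} (huv : u ≠ v)
    (hu : u ∈ Sg f) (hv : v ∈ Sg f) : ¬ Hᶜ.Reachable u v := by
  classical
  suffices key : ∀ (δ : ℕ) (f : V → Fin (r + 1)), Opt H f → ∀ u v : V, u ≠ v → u ∈ Sg f →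
      v ∈ Sg f → Hᶜ.Reachable u v → Hᶜ.dist u v = δ → False from
    fun hr => key _ f hf u v huv hu hv hr rfl
  clear hu hv huv u v hf f
  intro δ
  induction δ using Nat.strong_induction_on with
  | _ δ ih =>
  intro f hf u v huv hu hv hr hδ
  have hadj : ¬ Hᶜ.Adj u v := by
    intro h1
    rw [SimpleGraph.compl_adj] at h1
    exact h1.2 (merge h.nc hf.1 hu hv huv)
  obtain ⟨p, hp⟩ := hr.exists_walk_length_eq_dist
  cases p with
  | nil => exact huv rfl
  | @cons _ t _ hut p' =>
  rw [SimpleGraph.Walk.length_cons] at hp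
  have hd1 : Hᶜ.dist t v < δ := by
    have := SimpleGraph.dist_le p'
    omega
  have htv : t ≠ v := by
    rintro rfl
    exact hadj hut
  have htvr : Hᶜ.Reachable t v := ⟨p'⟩
  have hd2 : Hᶜ.dist u t < δ := by
    have h1 : Hᶜ.dist u t = 1 := SimpleGraph.dist_eq_one_iff_adj.2 hut
    have h2 : 0 < Hᶜ.dist t v := htvr.pos_dist_of_ne htv
    have h3 := SimpleGraph.dist_le p'
    omega
  have no1 : ∀ g : V → Fin (r + 1), Opt H g → u ∈ Sg g → t ∈ Sg g → False := fun g h1 h2 h3 =>
    ih _ hd2 g h1 u t hut.ne h2 h3 hut.reachable rfl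
  have no2 : ∀ g : V → Fin (r + 1), Opt H g → t ∈ Sg g → v ∈ Sg g → False := fun g h1 h2 h3 =>
    ih _ hd1 g h1 t v htv h2 h3 htvr rfl
  have hut2 := hut
  rw [SimpleGraph.compl_adj] at hut2
  obtain ⟨g0, hg0, ht0⟩ := ga_closed h hf hu (Ne.symm hut2.1) (fun h1 => hut2.2 h1.symm)
  obtain ⟨g, hg, hmax⟩ := (univ.filter (fun g : V → Fin (r + 1) =>
    Opt H g ∧ t ∈ Sg g)).exists_max_image (fun g => ag f g)
    ⟨g0, by rw [mem_filter]; exact ⟨mem_univ _, hg0, ht0⟩⟩
  rw [mem_filter] at hg
  obtain ⟨-, hgO, hgt⟩ := hg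
  have hgu : u ∉ Sg g := fun h1 => no1 g hgO h1 hgt
  have hgv : v ∉ Sg g := fun h1 => no2 g hgO hgt h1
  have hsub : Sg g ⊆ insert t (((Sg f).erase u).erase v) := by
    intro x hx
    rw [mem_insert]
    by_cases hxt : x = t
    · exact Or.inl hxt
    · refine Or.inr ?_
      rw [mem_erase, mem_erase]
      refine ⟨fun h1 => hgv (h1 ▸ hx), fun h1 => hgu (h1 ▸ hx), ?_⟩
      by_contra hxf
      rw [mem_Sg] at hxf
      push Not at hxf
      obtain ⟨y, hy1, hy2⟩ := hxf
      obtain ⟨g', hg', hag, hk, hcd⟩ := exch h.nc hf.1 hgO.1 hx hy2 hy1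
      have := hmax g' (by
        rw [mem_filter]
        exact ⟨mem_univ _, ⟨hg', fun c' hc' => hcd.trans (hgO.2 c' hc')⟩,
          hk t hgt (Ne.symm hxt)⟩)
      omega
  have h1 := (card_le_card hsub).trans (card_insert_le _ _)
  have h2 : ((Sg f).erase u).card + 1 = (Sg f).card := card_erase_add_one hu
  have h3 : (((Sg f).erase u).erase v).card + 1 = ((Sg f).erase u).card :=
    card_erase_add_one (mem_erase.2 ⟨huv.symm, hv⟩)
  have h4 := hf.2 g hgO.1
  omega

/-- `n + σ ≥ 2 (r + 1)` -/
theorem two_le_card (hnc : ¬ H.Colorable r) {f : V → Fin (r + 1)} (hf : Pc H f) :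
    2 * (r + 1) ≤ Fintype.card V + (Sg f).card := by
  classical
  have h1 : Fintype.card V = ∑ j : Fin (r + 1), (univ.filter fun v => f v = j).card := by
    rw [← card_univ]
    exact card_eq_sum_card_fiberwise fun v _ => mem_coe.2 (mem_univ (f v))
  have h2 : (Sg f).card = ∑ j : Fin (r + 1), ((Sg f).filter fun v => f v = j).card :=
    card_eq_sum_card_fiberwise fun v _ => mem_coe.2 (mem_univ (f v))
  have h3 : ∀ j : Fin (r + 1), 2 ≤ (univ.filter fun v => f v = j).card +
      ((Sg f).filter fun v => f v = j).card := by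
    intro j
    obtain ⟨v, hv⟩ := surj hnc hf j
    have h4 : 0 < (univ.filter fun v => f v = j).card :=
      card_pos.2 ⟨v, by simp [hv]⟩
    by_cases hs : v ∈ Sg f
    · have h5 : 0 < ((Sg f).filter fun v => f v = j).card :=
        card_pos.2 ⟨v, by simp [hs, hv]⟩
      omega
    · rw [mem_Sg] at hs
      push Not at hs
      obtain ⟨w, hw1, hw2⟩ := hs
      have h5 : 1 < (univ.filter fun v => f v = j).card := by
        rw [one_lt_card]
        exact ⟨w, by simp [hw1, hv], v, by simp [hv], hw2⟩
      omega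
  have h4 : ∑ _j : Fin (r + 1), 2 ≤ ∑ j : Fin (r + 1), ((univ.filter fun v => f v = j).card +
      ((Sg f).filter fun v => f v = j).card) := sum_le_sum fun j _ => h3 j
  rw [sum_add_distrib, ← h1, ← h2, sum_const, card_univ, Fintype.card_fin, smul_eq_mul] at h4
  omega

open Classical in
/-- number of vertices of the component of `v` in the complement -/
noncomputable def cs (H : SimpleGraph V) (v : V) : ℕ :=
  (univ.filter (fun w => Hᶜ.Reachable v w)).card

theorem cs_pos (v : V) : 0 < cs H v := by
  classical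
  unfold cs
  exact card_pos.2 ⟨v, by simp⟩

theorem cs_eq {v w : V} (h : Hᶜ.Reachable v w) : cs H v = cs H w := by
  classical
  unfold cs
  congr 1
  ext u
  simp only [mem_filter, mem_univ, true_and]
  exact ⟨fun h1 => h.symm.trans h1, fun h1 => h.trans h1⟩

/-- **Gallai**, first form -/
theorem ga_sum (h : VC H r) (a : V) :
    2 * ((r : ℝ) + 1) ≤ (Fintype.card V : ℝ) + ∑ v : V, 1 / (cs H v : ℝ) := by
  classical
  obtain ⟨f, hf⟩ := exists_opt h a
  have h1 := two_le_card h.nc hf.1
  have h2 : ((Sg f).card : ℝ) ≤ ∑ v : V, 1 / (cs H v : ℝ) := by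
    have h3 : ((Sg f).card : ℝ) = ∑ s ∈ Sg f, ∑ v ∈ univ.filter (fun w => Hᶜ.Reachable s w),
        1 / (cs H v : ℝ) := by
      rw [card_eq_sum_ones, Nat.cast_sum]
      refine sum_congr rfl fun s _ => ?_
      have h4 : ∀ v ∈ univ.filter (fun w => Hᶜ.Reachable s w), 1 / (cs H v : ℝ) =
          1 / (cs H s : ℝ) := by
        intro v hv
        rw [mem_filter] at hv
        rw [cs_eq hv.2]
      rw [sum_congr rfl h4, sum_const, nsmul_eq_mul]
      have h5 : (univ.filter (fun w => Hᶜ.Reachable s w)).card = cs H s := by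
        unfold cs
        congr
      rw [h5]
      have h6 : (0 : ℝ) < cs H s := by exact_mod_cast cs_pos s
      field_simp
      simp
    rw [h3, ← sum_biUnion]
    · refine sum_le_sum_of_subset_of_nonneg (subset_univ _) fun v _ _ => by positivity
    · intro s hs s' hs' hne
      rw [Function.onFun, disjoint_left]
      intro v hv hv'
      rw [mem_filter] at hv hv'
      exact ga_sep h hf hne (mem_coe.1 hs) (mem_coe.1 hs') (hv.2.trans hv'.2.symm)
  have h3 : (2 * ((r : ℝ) + 1)) ≤ (Fintype.card V : ℝ) + ((Sg f).card : ℝ) := by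
    exact_mod_cast h1
  linarith

/-- **Gallai**, second form -/
theorem ga_card (h : VC H r) (v : V) : cs H v + 2 * (r + 1) ≤ 2 * Fintype.card V + 1 := by
  classical
  obtain ⟨f, hf⟩ := exists_opt h v
  have h1 := two_le_card h.nc hf.1
  have h2 : cs H v + (Sg f).card ≤ Fintype.card V + 1 := by
    have h3 : ((univ.filter (fun w => Hᶜ.Reachable v w)) ∩ Sg f).card ≤ 1 := by
      rw [card_le_one]
      intro a ha b hb
      rw [mem_inter, mem_filter] at ha hb
      by_contra hne
      exact ga_sep h hf hne ha.2 hb.2 (ha.1.2.symm.trans hb.1.2)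
    have h4 := card_union_add_card_inter (univ.filter (fun w => Hᶜ.Reachable v w)) (Sg f)
    have h5 : ((univ.filter (fun w => Hᶜ.Reachable v w)) ∪ Sg f).card ≤ Fintype.card V :=
      card_le_univ _
    have h6 : cs H v = (univ.filter (fun w => Hᶜ.Reachable v w)).card := by
      unfold cs
      congr
    omega
  omega

end Pool.Agent.ALD
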