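import Pool.Agent.ALD.Co

/-!
# ALD JN: joins of graphs with few colours or few vertices

`G` has an induced subgraph `A` with `χ(A) ≥ t` whose vertices are divided into completely adjacent
parts `A_i`, and for every `i` either `|A_i| ≤ (4/3 + ε) t` or `χ(A_i) ≤ (2/3 + ε) t` or
`|A_i| + χ(A ∖ A_i) ≤ (5/3 + ε) t`.

PROOF.  Let `H` be a `t`-critical subgraph of `A`, `f` an optimal colouring, `Q` a component of the
complement of `H`; it is in one part `A_i`.  `f` has at most `χ(P)` colours on every union `P` of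
components (`col_le`), and `Q` has at least `2 k_Q - 1` vertices.  So in the first two cases `Q` has
at most `(2/3 + ε) t + 1` colours.  In the third
case `f` has at least `t - χ(A ∖ A_i)` colours on `A_i`, those which are not on `Q` need at least
one vertex each; so `k_Q ≤ (2/3 + ε) t + 1`.
-/

set_option autoImplicit false

namespace Pool.Agent.ALD

open Finset Pool.Agent.ALB Pool.Agent.ALC

/-- a union of colour classes which is `q`-colourable has at most `q` colours -/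
theorem col_le {V : Type} [Fintype V] {H : SimpleGraph V} {r : ℕ} (hnc : ¬ H.Colorable r)
    {f : V → Fin (r + 1)} (hf : Pc H f) (P : Set V)
    (hP : ∀ x y, x ∈ P → f x = f y → y ∈ P) {q : ℕ}
    (hq : (H.comap (Subtype.val : {x // x ∈ P} → V)).Colorable q) (T : Finset (Fin (r + 1)))
    (hT : ∀ j, j ∈ T ↔ ∃ x ∈ P, f x = j) : T.card ≤ q := by
  classical
  obtain ⟨g⟩ := hq
  by_contra hlt
  rw [not_le] at hlt
  have hc : H.Colorable (Fintype.card ({j : Fin (r + 1) // j ∉ T} ⊕ Fin q)) := by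
    refine SimpleGraph.Coloring.colorable (SimpleGraph.Coloring.mk
      (fun w => if h : w ∈ P then Sum.inr (g ⟨w, h⟩) else
        Sum.inl ⟨f w, ?_⟩) ?_)
    · intro hj
      rw [hT] at hj
      obtain ⟨x, hx, hxw⟩ := hj
      exact h (hP x w hx hxw)
    · intro x y hxy
      by_cases hx : x ∈ P
      · by_cases hy : y ∈ P
        · simp only [dif_pos hx, dif_pos hy, ne_eq, Sum.inr.injEq]
          exact g.valid (v := ⟨x, hx⟩) (w := ⟨y, hy⟩) hxy
        · simp [dif_pos hx, dif_neg hy]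
      · by_cases hy : y ∈ P
        · simp [dif_neg hx, dif_pos hy]
        · simp only [dif_neg hx, dif_neg hy, ne_eq, Sum.inl.injEq, Subtype.mk.injEq]
          exact hf x y hxy
  refine hnc (hc.mono ?_)
  rw [Fintype.card_sum, Fintype.card_fin]
  have h1 : Fintype.card {j : Fin (r + 1) // j ∉ T} = (r + 1) - T.card := by
    rw [Fintype.card_subtype_compl, Fintype.card_fin, Fintype.card_coe]
  rw [h1]
  have h7 : T.card ≤ r + 1 := by
    have := card_le_univ T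
    rwa [Fintype.card_fin] at this
  omega

/-- the two cases for a critical graph `H` with a map `ψ` into `W` -/
theorem kq_two {W V : Type} [Fintype V] {G : SimpleGraph W} (ψ : V → W)
    (hψ : Function.Injective ψ) {r : ℕ}
    (hH : VC (G.comap ψ) r) {f : V → Fin (r + 1)} (hf : Opt (G.comap ψ) f)
    (A : Finset W) (p : W → ℕ) (hS : ∀ v, ψ v ∈ A)
    (hp : ∀ u ∈ A, ∀ v ∈ A, p u ≠ p v → G.Adj u v) (v : V) {q : ℕ} {B : ℕ}
    (hq : {x | x ∈ A ∧ p x = p (ψ v)}.ncard + 1 ≤ 2 * B ∨ (q ≤ B ∧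
        (G.comap (Subtype.val : {x // x ∈ A ∧ p x = p (ψ v)} → W)).Colorable q) ∨
      ({x | x ∈ A ∧ p x = p (ψ v)}.ncard + q ≤ B + r ∧
        (G.comap (Subtype.val : {x // x ∈ A ∧ p x ≠ p (ψ v)} → W)).Colorable q)) :
    kq (G.comap ψ) f v ≤ B := by
  classical
  have key : ∀ x y : V, (G.comap ψ)ᶜ.Reachable x y → p (ψ x) = p (ψ y) := by
    intro x y hx
    obtain ⟨w⟩ := hx
    induction w with
    | nil => rfl
    | @cons a b c hab _ ih =>
      rw [← ih]
      by_contra hne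
      rw [SimpleGraph.compl_adj] at hab
      exact hab.2 (hp (ψ a) (hS a) (ψ b) (hS b) hne)
  have key2 : ∀ x y : V, f x = f y → p (ψ x) = p (ψ y) := fun x y h =>
    key x y (same_col hf.1 h)
  have h6 : Cm (G.comap ψ) v ⊆ univ.filter fun x : V => p (ψ x) = p (ψ v) := by
    intro x hx
    rw [mem_Cm] at hx
    rw [mem_filter]
    exact ⟨mem_univ _, (key _ _ hx).symm⟩
  have h8 : (univ.filter fun x : V => p (ψ x) = p (ψ v)).card ≤
      {x | x ∈ A ∧ p x = p (ψ v)}.ncard := by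
    rw [← Set.ncard_coe_finset]
    refine Set.ncard_le_ncard_of_injOn ψ ?_ hψ.injOn ?_
    · intro x hx
      rw [mem_coe, mem_filter] at hx
      exact ⟨hS x, hx.2⟩
    · exact A.finite_toSet.subset fun x hx => mem_coe.2 hx.1
  have h9 := two_kq hH hf v
  rcases hq with hq0 | ⟨hq1, hq2⟩ | ⟨hq1, hq2⟩
  · have h10 := card_le_card h6
    rw [card_Cm] at h10
    omega
  · refine le_trans ?_ hq1
    refine col_le hH.nc hf.1 {x | x ∈ Cm (G.comap ψ) v} ?_ ?_ _ ?_
    · intro x y hx hxy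
      change y ∈ Cm (G.comap ψ) v
      have hx' : x ∈ Cm (G.comap ψ) v := hx
      rw [mem_Cm] at hx' ⊢
      exact hx'.trans (same_col hf.1 hxy)
    · obtain ⟨g⟩ := hq2
      refine ⟨SimpleGraph.Coloring.mk (fun x => g ⟨ψ x.1, hS _, ?_⟩) ?_⟩
      · have hx : x.1 ∈ Cm (G.comap ψ) v := x.2
        rw [mem_Cm] at hx
        exact (key _ _ hx).symm
      · intro x y hxy
        exact g.valid (v := ⟨ψ x.1, _⟩) (w := ⟨ψ y.1, _⟩) hxy
    · intro j
      rw [mem_image]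
      rfl
  · have h1 : ((univ.filter fun x : V => p (ψ x) ≠ p (ψ v)).image f).card ≤ q := by
      refine col_le hH.nc hf.1 {x | p (ψ x) ≠ p (ψ v)} ?_ ?_ _ ?_
      · intro x y hx hxy
        change p (ψ y) ≠ p (ψ v)
        rw [← key2 x y hxy]
        exact hx
      · obtain ⟨g⟩ := hq2
        refine ⟨SimpleGraph.Coloring.mk (fun x => g ⟨ψ x.1, hS _, x.2⟩) ?_⟩
        intro x y hxy
        exact g.valid (v := ⟨ψ x.1, _⟩) (w := ⟨ψ y.1, _⟩) hxy
      · intro j
        simp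
    have h2 : (univ : Finset (Fin (r + 1))) ⊆
        ((Cm (G.comap ψ) v).image f ∪ ((univ.filter fun x : V => p (ψ x) = p (ψ v)) \
          Cm (G.comap ψ) v).image f) ∪ (univ.filter fun x : V => p (ψ x) ≠ p (ψ v)).image f := by
      intro j _
      obtain ⟨w, hw⟩ := surj hH.nc hf.1 j
      rw [mem_union, mem_union, mem_image, mem_image, mem_image]
      by_cases hw1 : p (ψ w) = p (ψ v)
      · by_cases hw2 : w ∈ Cm (G.comap ψ) v
        · exact Or.inl (Or.inl ⟨w, hw2, hw⟩)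
        · exact Or.inl (Or.inr ⟨w, by simp [hw1, hw2], hw⟩)
      · exact Or.inr ⟨w, by simp [hw1], hw⟩
    have h3 := (card_le_card h2).trans (card_union_le _ _)
    have h4 := card_union_le ((Cm (G.comap ψ) v).image f)
      (((univ.filter fun x : V => p (ψ x) = p (ψ v)) \ Cm (G.comap ψ) v).image f)
    have h5 : ((((univ.filter fun x : V => p (ψ x) = p (ψ v)) \ Cm (G.comap ψ) v)).image f).card ≤
        ((univ.filter fun x : V => p (ψ x) = p (ψ v)) \ Cm (G.comap ψ) v).card := card_image_le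
    have h7 := card_sdiff_add_card_eq_card h6
    have h10 : kq (G.comap ψ) f v = ((Cm (G.comap ψ) v).image f).card := rfl
    rw [card_Cm] at h7
    rw [card_univ, Fintype.card_fin] at h3
    omega

/-- joins of graphs with few colours or few vertices -/
theorem core_join : ∃ ε : ℝ, 0 < ε ∧ ∃ k₀ : ℕ, ∀ (n : ℕ) (G : SimpleGraph (Fin n)) (k : ℕ),
    k₀ ≤ k → ∀ (A : Finset (Fin n)) (p : Fin n → ℕ),
      ¬ (G.comap (Subtype.val : {x // x ∈ A} → Fin n)).Colorable (k - 1) →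
      (∀ u ∈ A, ∀ v ∈ A, p u ≠ p v → G.Adj u v) →
      (∀ i : ℕ, ({x | x ∈ A ∧ p x = i}.ncard : ℝ) ≤ (4 / 3 + ε) * (k : ℝ) ∨ ∃ q : ℕ,
        ((q : ℝ) ≤ (2 / 3 + ε) * (k : ℝ) ∧
          (G.comap (Subtype.val : {x // x ∈ A ∧ p x = i} → Fin n)).Colorable q) ∨
        (({x | x ∈ A ∧ p x = i}.ncard : ℝ) + (q : ℝ) ≤ (5 / 3 + ε) * (k : ℝ) ∧
          (G.comap (Subtype.val : {x // x ∈ A ∧ p x ≠ i} → Fin n)).Colorable q)) →
    ∀ D : Drw G, crK k ≤ D.cr := by
  classical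
  obtain ⟨c, hc0, hc1, hc2⟩ := exists_limit
  rcases hc0.eq_or_lt with h0 | hpos
  · refine ⟨1, one_pos, 0, ?_⟩
    intro n G k _ _ _ _ _ _ D
    have h1 := hc1 k
    rw [← h0, zero_mul] at h1
    have h2 : crK k = 0 := by exact_mod_cast le_antisymm h1 (Nat.cast_nonneg _)
    rw [h2]
    exact Nat.zero_le _
  have hc : Lim c := ⟨hpos, hc1, hc2⟩
  obtain ⟨e, he, he1, r0, h0⟩ := core hc
  obtain ⟨N, hN⟩ := exists_nat_ge (200 / e)
  refine ⟨e / 200, by positivity, max (r0 + 1) (max 2 (N + 1)), ?_⟩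
  intro n G k hk A p hA hp hq D
  simp only [max_le_iff] at hk
  obtain ⟨hk1, hk2, hk3⟩ := hk
  obtain ⟨r, rfl⟩ : ∃ r, k = r + 1 := ⟨k - 1, by omega⟩
  have hr0 : 0 < r := by omega
  rw [Nat.add_sub_cancel] at hA
  have hrN : 200 / e ≤ (r : ℝ) + 1 := by
    have h4 : (N:ℝ) ≤ (r:ℝ) := by exact_mod_cast (by omega : N ≤ r)
    linarith
  rw [div_le_iff₀ he] at hrN
  have hr00 : (0 : ℝ) ≤ (r : ℝ) := Nat.cast_nonneg r
  obtain ⟨B, hB⟩ := exists_vc hr0 hA
  obtain ⟨D1, hD1⟩ := exists_comap D (Subtype.val : {x // x ∈ A} → Fin n)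
    Subtype.val_injective
  obtain ⟨D2, hD2⟩ := exists_comap D1 (Subtype.val : {x // x ∈ B} → {x // x ∈ A})
    Subtype.val_injective
  refine le_trans ?_ (hD2.trans hD1)
  refine h0 _ _ _ D2 r (by omega) hB ?_
  intro f hf v
  have hb0 : 0 ≤ (2 / 3 + e / 100) * ((r : ℝ) + 1) := by positivity
  have h5 : kq ((G.comap (Subtype.val : {x // x ∈ A} → Fin n)).comap
      (Subtype.val : {x // x ∈ B} → {x // x ∈ A})) f v ≤
      ⌊(2 / 3 + e / 100) * ((r : ℝ) + 1)⌋₊ := by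
    rcases hq (p v.1.1) with hq0 | ⟨q, hq1⟩
    · refine kq_two (G := G) (fun x : {x // x ∈ B} => x.1.1)
        (fun x y hxy => Subtype.ext (Subtype.ext hxy)) (r := r) hB hf A p
        (fun v => v.1.2) hp v (q := 0) (Or.inl ?_)
      push_cast at hq0
      have h6 : ((({x | x ∈ A ∧ p x = p v.1.1}.ncard + 3 : ℕ) : ℝ)) ≤
          2 * ((2 / 3 + e / 100) * ((r : ℝ) + 1)) := by
        push_cast
        nlinarith
      have h7 := Nat.lt_floor_add_one ((2 / 3 + e / 100) * ((r : ℝ) + 1))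
      have h8 : ((({x | x ∈ A ∧ p x = p v.1.1}.ncard + 3 : ℕ) : ℝ)) <
          ((2 * ⌊(2 / 3 + e / 100) * ((r : ℝ) + 1)⌋₊ + 2 : ℕ) : ℝ) := by
        push_cast at h6 ⊢
        linarith
      have h9 : {x | x ∈ A ∧ p x = p v.1.1}.ncard + 3 <
          2 * ⌊(2 / 3 + e / 100) * ((r : ℝ) + 1)⌋₊ + 2 := by exact_mod_cast h8
      omega
    refine kq_two (G := G) (fun x : {x // x ∈ B} => x.1.1)
      (fun x y hxy => Subtype.ext (Subtype.ext hxy)) (r := r) hB hf A p
      (fun v => v.1.2) hp v (q := q) (Or.inr ?_)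
    · rcases hq1 with ⟨hq1, hq2⟩ | ⟨hq1, hq2⟩
      · refine Or.inl ⟨?_, hq2⟩
        refine Nat.le_floor ?_
        push_cast at hq1
        nlinarith
      · refine Or.inr ⟨?_, hq2⟩
        push_cast at hq1
        have h6 : ((({x | x ∈ A ∧ p x = p v.1.1}.ncard + q : ℕ) : ℝ)) ≤
            (2 / 3 + e / 100) * ((r : ℝ) + 1) + r := by
          push_cast
          nlinarith
        have h7 : {x | x ∈ A ∧ p x = p v.1.1}.ncard + q ≤
            ⌊(2 / 3 + e / 100) * ((r : ℝ) + 1) + r⌋₊ := Nat.le_floor h6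
        rwa [Nat.floor_add_natCast hb0] at h7
  have h6 : (kq ((G.comap (Subtype.val : {x // x ∈ A} → Fin n)).comap
      (Subtype.val : {x // x ∈ B} → {x // x ∈ A})) f v : ℝ) ≤
      (⌊(2 / 3 + e / 100) * ((r : ℝ) + 1)⌋₊ : ℝ) := by exact_mod_cast h5
  exact h6.trans (Nat.floor_le hb0)

theorem jn_not_col {V : Type} {G : SimpleGraph V} {t : ℕ} (ht : 1 ≤ t)
    (h : (t : ℕ∞) ≤ G.chromaticNumber) : ¬ G.Colorable (t - 1) := by
  intro hc
  have h1 := hc.chromaticNumber_le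
  have h2 : (t : ℕ∞) ≤ ((t - 1 : ℕ) : ℕ∞) := le_trans h h1
  have h3 : t ≤ t - 1 := by exact_mod_cast h2
  omega

/-- **Albertson's conjecture** for joins of graphs with few colours or few vertices -/
theorem main_join : ∃ ε : ℝ, 0 < ε ∧ ∃ t₀ : ℕ, ∀ (n : ℕ) (G : SimpleGraph (Fin n)) (t : ℕ),
    t₀ ≤ t → ∀ (A : Finset (Fin n)) (p : Fin n → ℕ),
      (t : ℕ∞) ≤ (G.comap (Subtype.val : {x // x ∈ A} → Fin n)).chromaticNumber →
      (∀ u ∈ A, ∀ v ∈ A, p u ≠ p v → G.Adj u v) →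
      (∀ i : ℕ, ({x | x ∈ A ∧ p x = i}.ncard : ℝ) ≤ (4 / 3 + ε) * (t : ℝ) ∨ ∃ q : ℕ,
        ((q : ℝ) ≤ (2 / 3 + ε) * (t : ℝ) ∧
          (G.comap (Subtype.val : {x // x ∈ A ∧ p x = i} → Fin n)).Colorable q) ∨
        (({x | x ∈ A ∧ p x = i}.ncard : ℝ) + (q : ℝ) ≤ (5 / 3 + ε) * (t : ℝ) ∧
          (G.comap (Subtype.val : {x // x ∈ A ∧ p x ≠ i} → Fin n)).Colorable q)) →
      ∀ (pos : Fin n → ℝ × ℝ) (γ : ∀ u v : Fin n, Path (pos u) (pos v)), IsFrz G pos γ →
        ∃ (pos' : Fin t → ℝ × ℝ) (γ' : ∀ u v : Fin t, Path (pos' u) (pos' v)),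
          IsFrz (⊤ : SimpleGraph (Fin t)) pos' γ' ∧
          (XS (⊤ : SimpleGraph (Fin t)) pos' γ').ncard ≤ (XS G pos γ).ncard := by
  obtain ⟨ε, hε, k0, h0⟩ := core_join
  refine ⟨ε, hε, max k0 1, ?_⟩
  intro n G t ht A p hA hp hq pos γ hf
  obtain ⟨D, hD⟩ := frz_in hf
  have hle := h0 n G t ((le_max_left _ _).trans ht) A p
    (jn_not_col ((le_max_right _ _).trans ht) hA) hp hq D
  obtain ⟨D', hD'⟩ := Pool.Agent.ALB.exists_opt t
  obtain ⟨pos', γ', hfz, hcr⟩ := frz_out D'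
  exact ⟨pos', γ', hfz, by rw [hcr, hD', ← hD]; exact hle⟩

end Pool.Agent.ALD
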