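import Pool.Agent.ALD.Ga

/-!
# ALD KQ: colours of a component of the complement

`f` is an optimal colouring (`Opt H f`), `kq H f v` the number of its colours on the component of
`v` in `Hᶜ`.  A colour class lies in one component.
-/

set_option autoImplicit false

namespace Pool.Agent.ALD

open Finset Pool.Agent.ALB Pool.Agent.ALC

variable {V : Type} [Fintype V] {H : SimpleGraph V} {r : ℕ}

open Classical in
/-- the component of `v` in the complement -/
noncomputable def Cm (H : SimpleGraph V) (v : V) : Finset V :=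
  univ.filter (fun w => Hᶜ.Reachable v w)

open Classical in
/-- the number of colours on the component of `v` -/
noncomputable def kq (H : SimpleGraph V) (f : V → Fin (r + 1)) (v : V) : ℕ :=
  ((Cm H v).image f).card

theorem mem_Cm {v w : V} : w ∈ Cm H v ↔ Hᶜ.Reachable v w := by
  unfold Cm
  simp

theorem card_Cm (v : V) : (Cm H v).card = cs H v := by
  unfold Cm cs
  congr

theorem Cm_eq {v w : V} (h : Hᶜ.Reachable v w) : Cm H v = Cm H w := by
  ext u
  rw [mem_Cm, mem_Cm]
  exact ⟨fun h1 => h.symm.trans h1, fun h1 => h.trans h1⟩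

theorem self_mem (v : V) : v ∈ Cm H v := mem_Cm.2 (SimpleGraph.Reachable.refl v)

theorem kq_eq {f : V → Fin (r + 1)} {v w : V} (h : Hᶜ.Reachable v w) : kq H f v = kq H f w := by
  unfold kq
  rw [Cm_eq h]

/-- a colour class lies in one component -/
theorem same_col {f : V → Fin (r + 1)} (hf : Pc H f) {x y : V} (h : f x = f y) :
    Hᶜ.Reachable x y := by
  by_cases hxy : x = y
  · subst hxy
    exact SimpleGraph.Reachable.refl x
  · refine SimpleGraph.Adj.reachable ?_
    rw [SimpleGraph.compl_adj]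
    exact ⟨hxy, fun h1 => hf x y h1 h⟩

/-- different components are completely adjacent -/
theorem adj_of {x y : V} (h : ¬ Hᶜ.Reachable x y) : H.Adj x y := by
  by_contra h1
  apply h
  by_cases hxy : x = y
  · subst hxy
    exact SimpleGraph.Reachable.refl x
  · refine SimpleGraph.Adj.reachable ?_
    rw [SimpleGraph.compl_adj]
    exact ⟨hxy, h1⟩

theorem kq_pos (f : V → Fin (r + 1)) (v : V) : 1 ≤ kq H f v := by
  classical
  unfold kq
  exact card_pos.2 ⟨f v, mem_image_of_mem f (self_mem v)⟩

theorem kq_le_cs (f : V → Fin (r + 1)) (v : V) : kq H f v ≤ cs H v := by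
  classical
  unfold kq
  rw [← card_Cm]
  exact card_image_le

theorem two_kq (h : VC H r) {f : V → Fin (r + 1)} (hf : Opt H f) (v : V) :
    2 * kq H f v ≤ cs H v + 1 := by
  classical
  have h1 : (Cm H v).card = ∑ j ∈ (Cm H v).image f, ((Cm H v).filter fun w => f w = j).card :=
    card_eq_sum_card_image f (Cm H v)
  have h2 : ((Cm H v) ∩ Sg f).card =
      ∑ j ∈ (Cm H v).image f, (((Cm H v) ∩ Sg f).filter fun w => f w = j).card := by
    refine card_eq_sum_card_fiberwise ?_
    intro w hw
    exact mem_coe.2 (mem_image_of_mem f (mem_inter.1 (mem_coe.1 hw)).1)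
  have h3 : ∀ j ∈ (Cm H v).image f, 2 ≤ ((Cm H v).filter fun w => f w = j).card +
      (((Cm H v) ∩ Sg f).filter fun w => f w = j).card := by
    intro j hj
    rw [mem_image] at hj
    obtain ⟨w, hw, hwj⟩ := hj
    have h4 : 0 < ((Cm H v).filter fun w => f w = j).card :=
      card_pos.2 ⟨w, by simp [hw, hwj]⟩
    by_cases hs : w ∈ Sg f
    · have h5 : 0 < (((Cm H v) ∩ Sg f).filter fun w => f w = j).card :=
        card_pos.2 ⟨w, by simp [hs, hw, hwj]⟩
      omega
    · rw [mem_Sg] at hs
      push Not at hs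
      obtain ⟨u, hu1, hu2⟩ := hs
      have hu : u ∈ Cm H v := by
        rw [mem_Cm] at hw ⊢
        exact hw.trans (same_col hf.1 hu1.symm)
      have h5 : 1 < ((Cm H v).filter fun w => f w = j).card := by
        rw [one_lt_card]
        exact ⟨u, by simp [hu, hu1, hwj], w, by simp [hw, hwj], hu2⟩
      omega
  have h4 : ∑ _j ∈ (Cm H v).image f, 2 ≤ ∑ j ∈ (Cm H v).image f,
      (((Cm H v).filter fun w => f w = j).card +
      (((Cm H v) ∩ Sg f).filter fun w => f w = j).card) := sum_le_sum h3
  rw [sum_add_distrib, ← h1, ← h2, sum_const, smul_eq_mul] at h4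
  have h5 : ((Cm H v) ∩ Sg f).card ≤ 1 := by
    rw [card_le_one]
    intro a ha b hb
    rw [mem_inter, mem_Cm] at ha hb
    by_contra hne
    exact ga_sep h hf hne ha.2 hb.2 (ha.1.symm.trans hb.1)
  have h6 : kq H f v = ((Cm H v).image f).card := rfl
  rw [card_Cm] at h4
  omega

theorem sum_kq (h : VC H r) {f : V → Fin (r + 1)} (hf : Opt H f) :
    (r : ℝ) + 1 ≤ ∑ v : V, (kq H f v : ℝ) / (cs H v : ℝ) := by
  classical
  have h1 : ∀ v : V, (kq H f v : ℝ) / (cs H v : ℝ) =
      ∑ j : Fin (r + 1), (if j ∈ (Cm H v).image f then 1 / (cs H v : ℝ) else 0) := by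
    intro v
    rw [← sum_filter, sum_const, nsmul_eq_mul]
    have h2 : (univ.filter fun j : Fin (r + 1) => j ∈ (Cm H v).image f) = (Cm H v).image f := by
      ext j
      simp
    rw [h2]
    unfold kq
    ring
  rw [sum_congr rfl fun v _ => h1 v, sum_comm]
  have h2 : ∀ j : Fin (r + 1), (1 : ℝ) ≤
      ∑ v : V, (if j ∈ (Cm H v).image f then 1 / (cs H v : ℝ) else 0) := by
    intro j
    obtain ⟨w, hw⟩ := surj h.nc hf.1 j
    have h3 : ∑ v ∈ Cm H w, 1 / (cs H v : ℝ) = 1 := by
      have h4 : ∀ v ∈ Cm H w, 1 / (cs H v : ℝ) = 1 / (cs H w : ℝ) := by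
        intro v hv
        rw [mem_Cm] at hv
        rw [cs_eq hv]
      rw [sum_congr rfl h4, sum_const, nsmul_eq_mul, card_Cm]
      have h6 : (0 : ℝ) < cs H w := by exact_mod_cast cs_pos w
      field_simp
    calc (1 : ℝ) = ∑ v ∈ Cm H w, 1 / (cs H v : ℝ) := h3.symm
      _ = ∑ v ∈ Cm H w, (if j ∈ (Cm H v).image f then 1 / (cs H v : ℝ) else 0) := by
          refine sum_congr rfl fun v hv => ?_
          rw [if_pos]
          rw [mem_image]
          rw [mem_Cm] at hv
          exact ⟨w, mem_Cm.2 hv.symm, hw⟩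
      _ ≤ _ := by
          refine sum_le_sum_of_subset_of_nonneg (subset_univ _) fun v _ _ => ?_
          split_ifs
          · positivity
          · exact le_refl _
  calc (r : ℝ) + 1 = ∑ _j : Fin (r + 1), (1 : ℝ) := by simp
    _ ≤ _ := sum_le_sum fun j _ => h2 j

/-- colours on different components are different -/
theorem disj_col {f : V → Fin (r + 1)} (hf : Pc H f) {u v : V} (huv : ¬ Hᶜ.Reachable u v)
    {x y : V} (hx : x ∈ Cm H u) (hy : y ∈ Cm H v) : f x ≠ f y := by
  intro h
  rw [mem_Cm] at hx hy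
  exact huv (hx.trans ((same_col hf h).trans hy.symm))

theorem one_cmp (hnc : ¬ H.Colorable r) {f : V → Fin (r + 1)} (hf : Pc H f) (v : V) :
    cs H v + (r + 1) ≤ Fintype.card V + kq H f v := by
  classical
  have h1 : (univ : Finset (Fin (r + 1))) ⊆ (Cm H v).image f ∪ (univ \ Cm H v).image f := by
    intro j _
    obtain ⟨w, hw⟩ := surj hnc hf j
    rw [mem_union, mem_image, mem_image]
    by_cases hwv : w ∈ Cm H v
    · exact Or.inl ⟨w, hwv, hw⟩
    · exact Or.inr ⟨w, by simp [hwv], hw⟩
  have h2 := (card_le_card h1).trans (card_union_le _ _)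
  have h3 : ((univ \ Cm H v).image f).card ≤ (univ \ Cm H v).card := card_image_le
  have h4 : (univ \ Cm H v).card = Fintype.card V - cs H v := by
    rw [card_sdiff_of_subset (subset_univ _), card_univ, card_Cm]
  have h5 : cs H v ≤ Fintype.card V := by
    rw [← card_Cm]
    exact card_le_univ _
  rw [card_univ, Fintype.card_fin] at h2
  have h6 : kq H f v = ((Cm H v).image f).card := rfl
  omega

theorem two_cmp (hnc : ¬ H.Colorable r) {f : V → Fin (r + 1)} (hf : Pc H f) {u v : V}
    (huv : ¬ Hᶜ.Reachable u v) :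
    cs H u + cs H v + (r + 1) ≤ Fintype.card V + kq H f u + kq H f v ∧
      kq H f u + kq H f v ≤ r + 1 := by
  classical
  have hdis : Disjoint (Cm H u) (Cm H v) := by
    rw [disjoint_left]
    intro x hx hy
    exact disj_col hf huv hx hy rfl
  have hdis2 : Disjoint ((Cm H u).image f) ((Cm H v).image f) := by
    rw [disjoint_left]
    intro j hj hj'
    rw [mem_image] at hj hj'
    obtain ⟨x, hx, rfl⟩ := hj
    obtain ⟨y, hy, hxy⟩ := hj'
    exact disj_col hf huv hx hy hxy.symm
  have h0 : ((Cm H u).image f ∪ (Cm H v).image f).card ≤ r + 1 := by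
    have := card_le_univ ((Cm H u).image f ∪ (Cm H v).image f)
    rwa [Fintype.card_fin] at this
  rw [card_union_of_disjoint hdis2] at h0
  have h1 : (univ : Finset (Fin (r + 1))) ⊆
      ((Cm H u).image f ∪ (Cm H v).image f) ∪ (univ \ (Cm H u ∪ Cm H v)).image f := by
    intro j _
    obtain ⟨w, hw⟩ := surj hnc hf j
    rw [mem_union, mem_union, mem_image, mem_image, mem_image]
    by_cases hwu : w ∈ Cm H u
    · exact Or.inl (Or.inl ⟨w, hwu, hw⟩)
    · by_cases hwv : w ∈ Cm H v
      · exact Or.inl (Or.inr ⟨w, hwv, hw⟩)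
      · exact Or.inr ⟨w, by simp [hwu, hwv], hw⟩
  have h2 := (card_le_card h1).trans (card_union_le _ _)
  rw [card_union_of_disjoint hdis2] at h2
  have h3 : ((univ \ (Cm H u ∪ Cm H v)).image f).card ≤ (univ \ (Cm H u ∪ Cm H v)).card :=
    card_image_le
  have h4 : (univ \ (Cm H u ∪ Cm H v)).card = Fintype.card V - (cs H u + cs H v) := by
    rw [card_sdiff_of_subset (subset_univ _), card_univ, card_union_of_disjoint hdis, card_Cm,
      card_Cm]
  have h5 : cs H u + cs H v ≤ Fintype.card V := by
    rw [← card_Cm, ← card_Cm, ← card_union_of_disjoint hdis]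
    exact card_le_univ _
  rw [card_univ, Fintype.card_fin] at h2
  have h6 : kq H f v = ((Cm H v).image f).card := rfl
  have h7 : kq H f u = ((Cm H u).image f).card := rfl
  exact ⟨by omega, h0⟩

/-- a component which is `q`-colourable has at most `q` colours -/
theorem kq_le (hnc : ¬ H.Colorable r) {f : V → Fin (r + 1)} (hf : Pc H f) (v : V) {q : ℕ}
    (g : V → Fin q) (hg : ∀ x y, Hᶜ.Reachable v x → Hᶜ.Reachable v y → H.Adj x y → g x ≠ g y) :
    kq H f v ≤ q := by
  classical
  by_contra hlt
  rw [not_le] at hlt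
  have hc : H.Colorable (Fintype.card ({j : Fin (r + 1) // j ∉ (Cm H v).image f} ⊕ Fin q)) := by
    refine SimpleGraph.Coloring.colorable (SimpleGraph.Coloring.mk
      (fun w => if h : w ∈ Cm H v then Sum.inr (g w) else
        Sum.inl ⟨f w, ?_⟩) ?_)
    · intro hj
      rw [mem_image] at hj
      obtain ⟨x, hx, hxw⟩ := hj
      apply h
      rw [mem_Cm] at hx ⊢
      exact hx.trans (same_col hf hxw)
    · intro x y hxy
      by_cases hx : x ∈ Cm H v
      · by_cases hy : y ∈ Cm H v
        · simp only [dif_pos hx, dif_pos hy, ne_eq, Sum.inr.injEq]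
          exact hg x y (mem_Cm.1 hx) (mem_Cm.1 hy) hxy
        · simp [dif_pos hx, dif_neg hy]
      · by_cases hy : y ∈ Cm H v
        · simp [dif_neg hx, dif_pos hy]
        · simp only [dif_neg hx, dif_neg hy, ne_eq, Sum.inl.injEq, Subtype.mk.injEq]
          exact hf x y hxy
  refine hnc (hc.mono ?_)
  rw [Fintype.card_sum, Fintype.card_fin]
  have h1 : Fintype.card {j : Fin (r + 1) // j ∉ (Cm H v).image f} =
      (r + 1) - ((Cm H v).image f).card := by
    rw [Fintype.card_subtype_compl, Fintype.card_fin, Fintype.card_coe]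
  rw [h1]
  have h6 : kq H f v = ((Cm H v).image f).card := rfl
  have h7 : ((Cm H v).image f).card ≤ r + 1 := by
    have := card_le_univ ((Cm H v).image f)
    rwa [Fintype.card_fin] at this
  omega

end Pool.Agent.ALD
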