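import Pool.Agent.ALD.Co

/-! # ALD: main theorem in the form of the frozen statement -/

set_option autoImplicit false

namespace Pool.Agent.ALD

open Pool.Agent.ALB

theorem not_col {V : Type} {G : SimpleGraph V} {t : ℕ} (ht : 1 ≤ t)
    (h : (t : ℕ∞) ≤ G.chromaticNumber) : ¬ G.Colorable (t - 1) := by
  intro hc
  have h1 := hc.chromaticNumber_le
  have h2 : (t : ℕ∞) ≤ ((t - 1 : ℕ) : ℕ∞) := le_trans h h1
  have h3 : t ≤ t - 1 := by exact_mod_cast h2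
  omega

theorem card_ge {n : ℕ} {G : SimpleGraph (Fin n)} {t : ℕ}
    (h : (t : ℕ∞) ≤ G.chromaticNumber) : t ≤ n := by
  have h1 : G.Colorable n := by
    have := SimpleGraph.colorable_of_fintype G
    rwa [Fintype.card_fin] at this
  have h2 : (t : ℕ∞) ≤ (n : ℕ∞) := h.trans h1.chromaticNumber_le
  exact_mod_cast h2

/-- **Albertson's conjecture** for graphs with few vertices, joins and dense graphs -/
theorem main : ∃ ε₀ : ℝ, 0 < ε₀ ∧ ∀ ε : ℝ, 0 < ε → ∃ t₀ : ℕ,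
    ∀ (n : ℕ) (G : SimpleGraph (Fin n)) (t : ℕ), t₀ ≤ t →
    ((n : ℝ) ≤ (5 / 3 + ε₀) * (t : ℝ) ∨
      (∃ (A : Finset (Fin n)) (p : Fin n → ℕ),
        (t : ℕ∞) ≤ (G.comap (Subtype.val : {x // x ∈ A} → Fin n)).chromaticNumber ∧
        (∀ u ∈ A, ∀ v ∈ A, p u ≠ p v → G.Adj u v) ∧
        ∀ i : ℕ, ∃ q : ℕ, (q : ℝ) ≤ (2 / 3 + ε₀) * (t : ℝ) ∧ ∃ g : Fin n → Fin q,
          ∀ u ∈ A, ∀ v ∈ A, p u = i → p v = i → G.Adj u v → g u ≠ g v) ∨
      (∀ v : Fin n, 17 * n ≤ 25 * {x | G.Adj v x}.ncard) ∨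
      ((1 + ε) * (t : ℝ) ≤ ∑ v : Fin n, Real.sqrt
          ((2 * ({x | G.Adj v x}.ncard : ℝ) - (n : ℝ)) / (n : ℝ)) ∧
        ε * (n : ℝ) ≤ ∑ v : Fin n, Real.sqrt
          ((2 * ({x | G.Adj v x}.ncard : ℝ) - (n : ℝ)) / (n : ℝ)))) →
    (t : ℕ∞) ≤ G.chromaticNumber →
      ∀ (pos : Fin n → ℝ × ℝ) (γ : ∀ u v : Fin n, Path (pos u) (pos v)), IsFrz G pos γ →
        ∃ (pos' : Fin t → ℝ × ℝ) (γ' : ∀ u v : Fin t, Path (pos' u) (pos' v)),
          IsFrz (⊤ : SimpleGraph (Fin t)) pos' γ' ∧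
          (XS (⊤ : SimpleGraph (Fin t)) pos' γ').ncard ≤ (XS G pos γ).ncard := by
  obtain ⟨ε₀, hε₀, hε₁, k0, h0⟩ := core_two
  refine ⟨ε₀, hε₀, fun ε hε => ?_⟩
  obtain ⟨k1, h1⟩ := core_sq (ε := min ε 1) (κ := min ε 1) (lt_min hε one_pos)
    (min_le_right _ _) (lt_min hε one_pos)
  obtain ⟨k2, h2⟩ := core_sq (ε := 3 / 5 * ε₀) (κ := 3 / 5) (by positivity) (by linarith)
    (by norm_num)
  refine ⟨max k0 (max k1 (max k2 1)), ?_⟩
  intro n G t ht hG hχ pos γ hf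
  simp only [max_le_iff] at ht
  obtain ⟨ht0, ht1, ht2, ht3⟩ := ht
  obtain ⟨D, hD⟩ := frz_in hf
  have hcol := not_col ht3 hχ
  have htn := card_ge hχ
  have htn' : t ≤ Fintype.card (Fin n) := by rwa [Fintype.card_fin]
  have hn0 : (0 : ℝ) < n := by
    have : 0 < n := by omega
    exact_mod_cast this
  have ht0' : (0 : ℝ) ≤ t := Nat.cast_nonneg t
  have hle : crK t ≤ D.cr := by
    by_cases hs : (n : ℝ) ≤ (5 / 3 + ε₀) * (t : ℝ)
    · exact h0 n G t ht0 (Or.inr ⟨hcol, hs⟩) D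
    rcases hG with hG | ⟨A, p, hA, hp, hq⟩ | hG | ⟨hG1, hG2⟩
    · exact absurd hG hs
    · exact h0 n G t ht0 (Or.inl ⟨A, p, not_col ht3 hA, hp, hq⟩) D
    · have h3 : ∀ v : Fin n, (3 / 5 : ℝ) ≤ Real.sqrt
          ((2 * ({x | G.Adj v x}.ncard : ℝ) - (n : ℝ)) / (n : ℝ)) := by
        intro v
        have h4 : 17 * (n : ℝ) ≤ 25 * ({x | G.Adj v x}.ncard : ℝ) := by exact_mod_cast hG v
        refine Real.le_sqrt_of_sq_le ?_
        rw [le_div_iff₀ hn0]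
        linarith
      have h4 : 3 / 5 * (n : ℝ) ≤ ∑ v : Fin n, Real.sqrt
          ((2 * ({x | G.Adj v x}.ncard : ℝ) - (n : ℝ)) / (n : ℝ)) := by
        calc 3 / 5 * (n : ℝ) = ∑ _v : Fin n, (3 / 5 : ℝ) := by
              rw [Finset.sum_const, Finset.card_univ, Fintype.card_fin, nsmul_eq_mul]
              ring
          _ ≤ _ := Finset.sum_le_sum fun v _ => h3 v
      refine h2 (Fin n) _ G t ht2 htn' ?_ ?_ D
      · rw [Fintype.card_fin]
        exact h4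
      · rw [Fintype.card_fin]
        refine le_trans ?_ h4
        have h5 := (not_le.1 hs).le
        linarith
    · refine h1 (Fin n) _ G t ht1 htn' ?_ ?_ D
      · rw [Fintype.card_fin]
        refine le_trans ?_ hG2
        exact mul_le_mul_of_nonneg_right (min_le_left _ _) hn0.le
      · rw [Fintype.card_fin]
        refine le_trans ?_ hG1
        exact mul_le_mul_of_nonneg_right (by linarith [min_le_left ε 1]) ht0'
  obtain ⟨D', hD'⟩ := Pool.Agent.ALB.exists_opt t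
  obtain ⟨pos', γ', hfz, hcr⟩ := frz_out D'
  exact ⟨pos', γ', hfz, by rw [hcr, hD', ← hD]; exact hle⟩

end Pool.Agent.ALD
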